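import Pool.Agent.TF4.Ver

set_option autoImplicit false

namespace TF4

open Finset Pool.Agent.TFC
open scoped Pointwise Classical

theorem K1_ncard {V : Type} [DecidableEq V] (H : SimpleGraph V) (F : Finset (Sym2 V))
    (h : ∀ u v, H.Adj u v ↔ s(u, v) ∈ F) (v : V) : {u | H.Adj v u}.ncard = dg F v := by
  have hinj : Function.Injective (fun u : V => s(v, u)) := fun a b hab => Sym2.congr_right.mp hab
  rw [← Set.ncard_image_of_injective _ hinj]
  have he : (fun u : V => s(v, u)) '' {u | H.Adj v u} = ((F.filter (fun e => v ∈ e) : Finset (Sym2 V)) : Set (Sym2 V)) := by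
    ext e
    simp only [Set.mem_image, Set.mem_ofPred_eq, coe_filter]
    constructor
    · rintro ⟨u, hu, rfl⟩
      exact ⟨(h v u).mp hu, Sym2.mem_mk_left v u⟩
    · rintro ⟨he, hv⟩
      obtain ⟨u, rfl⟩ := hv
      exact ⟨u, (h v u).mpr he, rfl⟩
  rw [he, Set.ncard_coe_finset]
  rfl

/-- (TF4-K1) 2-factors as edge sets and as graphs (`TF`, `SqFree`, `dg` are in Pool/Agent/SQF/Defs.lean, `IsFac` in
Pool/Agent/TF4/Ver.lean; the instance on `G.edgeFinset` is classical).
PROOF. (→) Given the edge set `F`, take the graph `H := SimpleGraph.fromEdgeSet (F : Set (Sym2 V))`, so `H.Adj u v ↔ s(u, v) ∈ F ∧ u ≠ v`;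
`H ≤ G` because `F ⊆ G.edgeFinset`. For a vertex `v` the map `u ↦ s(v, u)` is a bijection from `{u | H.Adj v u}` onto the
set of the `e ∈ F` with `v ∈ e` (`TF.nl`: no loops; `Sym2.mem_iff_exists` / `Sym2.mem_iff'`), so
`{u | H.Adj v u}.ncard = dg F v = 2` (`Set.ncard_coe_finset`, `Finset.card_bij`, or `Finset.card_image_of_injOn`). If
`H.Adj a b`, `H.Adj b c`, `H.Adj c d`, `H.Adj d a` and `a ≠ c`, `b ≠ d` then `Sq F a b c d`, against `SqFree F`.
(←) Given `H` with `IsFac G H`, take `F := H.edgeFinset`: `F ⊆ G.edgeFinset` (`H ≤ G`), `TF.nl` (edges of a simple graph are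
not diagonal), `dg F v = {u | H.Adj v u}.ncard = 2` by the same bijection, and a square of `F` contradicts `IsFac.free`. -/
theorem fac_iff {V : Type} [Fintype V] [DecidableEq V] (G : SimpleGraph V) :
    (∃ F ⊆ G.edgeFinset, TF F ∧ SqFree F) ↔ ∃ F, IsFac G F := by
  constructor
  · rintro ⟨F, hF, hT, hS⟩
    have hadj : ∀ u v, (SimpleGraph.fromEdgeSet (F : Set (Sym2 V))).Adj u v ↔ s(u, v) ∈ F := by
      intro u v
      rw [SimpleGraph.fromEdgeSet_adj]
      constructor
      · intro h
        exact h.1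
      · intro h
        refine ⟨h, ?_⟩
        intro huv
        exact hT.nl _ h (by simpa using huv)
    refine ⟨SimpleGraph.fromEdgeSet (F : Set (Sym2 V)), ?_, ?_, ?_⟩
    · intro u v h
      have h1 := hF ((hadj u v).mp h)
      rw [SimpleGraph.mem_edgeFinset, SimpleGraph.mem_edgeSet] at h1
      exact h1
    · intro v
      rw [K1_ncard _ F hadj v]
      exact hT.eq v
    · intro a b c d h1 h2 h3 h4
      by_contra hc
      push Not at hc
      exact hS a b c d ⟨hc.1, hc.2, (hadj _ _).mp h1, (hadj _ _).mp h2, (hadj _ _).mp h3,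
        (hadj _ _).mp h4⟩
  · rintro ⟨H, hH⟩
    have hadj : ∀ u v, H.Adj u v ↔ s(u, v) ∈ H.edgeFinset := by
      intro u v
      rw [SimpleGraph.mem_edgeFinset, SimpleGraph.mem_edgeSet]
    refine ⟨H.edgeFinset, ?_, ⟨?_, ?_⟩, ?_⟩
    · intro e he
      rw [SimpleGraph.mem_edgeFinset] at he ⊢
      exact SimpleGraph.edgeSet_mono hH.le he
    · intro e he
      rw [SimpleGraph.mem_edgeFinset] at he
      exact H.not_isDiag_of_mem_edgeSet he
    · intro v
      rw [← K1_ncard H H.edgeFinset hadj v]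
      exact hH.two v
    · intro a b c d hs
      rcases hH.free a b c d ((hadj _ _).mpr hs.ab) ((hadj _ _).mpr hs.bc) ((hadj _ _).mpr hs.cd)
        ((hadj _ _).mpr hs.da) with h | h
      · exact hs.ac h
      · exact hs.bd h

end TF4
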