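import Pool.Agent.TF4.Ver

set_option autoImplicit false

namespace TF4

open Finset Pool.Agent.TFC
open scoped Classical

/-- the adjacency matrix as a list -/
theorem code_length {n : ℕ} (G : SimpleGraph (Fin n)) : (code G).length = n * n := by
  unfold code
  simp

theorem idx_lt {n i j : ℕ} (hi : i < n) (hj : j < n) : n * i + j < n * n := by
  have : n * i + n ≤ n * n := by
    calc n * i + n = n * (i + 1) := by ring
      _ ≤ n * n := Nat.mul_le_mul_left _ hi
  omega

theorem bit_code {n : ℕ} (G : SimpleGraph (Fin n)) (i j : Fin n) : bit n (code G) i j = decide (G.Adj i j) := by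
  have hlt : n * (i : ℕ) + j < n * n := idx_lt i.2 j.2
  have hn : 0 < n := Nat.lt_of_le_of_lt (Nat.zero_le _) i.2
  unfold bit
  rw [List.getD_eq_getElem _ _ (by rw [code_length]; exact hlt)]
  unfold code
  rw [List.getElem_ofFn]
  have e1 : (⟨n * (i : ℕ) + j, by simpa using hlt⟩ : Fin (n * n)).divNat = i := by
    apply Fin.ext
    simp only [Fin.coe_divNat]
    rw [Nat.mul_add_div hn, Nat.div_eq_of_lt j.2, add_zero]
  have e2 : (⟨n * (i : ℕ) + j, by simpa using hlt⟩ : Fin (n * n)).modNat = j := by
    apply Fin.ext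
    simp only [Fin.coe_modNat]
    rw [Nat.mul_add_mod, Nat.mod_eq_of_lt j.2]
  rw [e1, e2]

theorem matB_iff' {n : ℕ} {w : List Bool} : matB n w = true ↔
    w.length = n * n ∧ ∀ i < n, bit n w i i = false ∧ ∀ j < n, bit n w i j = bit n w j i := by
  unfold matB
  simp only [Bool.and_eq_true, decide_eq_true_eq, List.all_eq_true, List.mem_range,
    Bool.not_eq_true']

theorem adj_gr {n : ℕ} {w : List Bool} (hw : matB n w = true) (i j : Fin n) :
    (gr n w).Adj i j ↔ bit n w i j = true := by
  rw [matB_iff'] at hw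
  constructor
  · rintro ⟨h, _, _⟩
    exact h
  · intro h
    refine ⟨h, ?_, ?_⟩
    · rw [← (hw.2 i i.2).2 j j.2]; exact h
    · rintro rfl
      rw [(hw.2 i i.2).1] at h
      exact Bool.false_ne_true h

/-- (TF4-K10) codes and well-formed strings.
PROOF. `bit n (code G) i j` is the entry with number `n i + j`, whose `divNat` is `i` and whose `modNat` is `j`; symmetric and zero on the diagonal. -/
theorem matB_code {n : ℕ} (G : SimpleGraph (Fin n)) : matB n (code G) = true ∧ gr n (code G) = G := by
  have h1 : matB n (code G) = true := by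
    rw [matB_iff']
    refine ⟨code_length G, ?_⟩
    intro i hi
    refine ⟨?_, ?_⟩
    · have := bit_code G ⟨i, hi⟩ ⟨i, hi⟩
      simp only at this
      rw [this]
      simp
    · intro j hj
      have a := bit_code G ⟨i, hi⟩ ⟨j, hj⟩
      have b := bit_code G ⟨j, hj⟩ ⟨i, hi⟩
      simp only at a b
      rw [a, b]
      simp only [G.adj_comm]
  refine ⟨h1, ?_⟩
  ext i j
  rw [adj_gr h1, bit_code, decide_eq_true_eq]

/-- PROOF. Both lists have length `n * n`; entry `k` of `code (gr n w)` is the truth value of `bit n w i j ∧ bit n w j i ∧ i ≠ j` with `k = n i + j` (`i = k / n`, `j = k % n`),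
which is `bit n w i j` by `matB` (symmetry and diagonal); `List.ext_getElem`. -/
theorem code_gr {n : ℕ} {w : List Bool} (hw : matB n w = true) : code (gr n w) = w := by
  have hl : w.length = n * n := (matB_iff'.1 hw).1
  apply List.ext_getElem
  · rw [code_length, hl]
  intro k h1 h2
  have hk : k < n * n := by rw [← hl]; exact h2
  have hn : 0 < n := by
    rcases Nat.eq_zero_or_pos n with h | h
    · subst h; simp at hk
    · exact h
  have hi : k / n < n := Nat.div_lt_of_lt_mul hk
  have hj : k % n < n := Nat.mod_lt _ hn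
  have e : n * (k / n) + k % n = k := Nat.div_add_mod k n
  have a := bit_code (gr n w) ⟨k / n, hi⟩ ⟨k % n, hj⟩
  simp only at a
  have b : bit n (code (gr n w)) (k / n) (k % n) = (code (gr n w))[k] := by
    unfold bit
    rw [e, List.getD_eq_getElem _ _ h1]
  have c : bit n w (k / n) (k % n) = w[k] := by
    unfold bit
    rw [e, List.getD_eq_getElem _ _ h2]
  rw [← b, ← c, a]
  have d := adj_gr hw ⟨k / n, hi⟩ ⟨k % n, hj⟩
  simp only at d
  rw [Bool.eq_iff_iff, decide_eq_true_eq]
  exact d

/-- PROOF. `side w` is the head of the list of the `m < w.length + 1` with `m * m = w.length`, which contains `n` (`n ≤ n * n`) and nothing else (`Nat.mul_self_inj`). -/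
theorem side_eq {n : ℕ} {w : List Bool} (hw : matB n w = true) : side w = n := by
  have hl : w.length = n * n := (matB_iff'.1 hw).1
  unfold side
  have hmem : n ∈ (List.range (w.length + 1)).filter (fun m => decide (m * m = w.length)) := by
    rw [List.mem_filter, List.mem_range]
    refine ⟨?_, by simp [hl]⟩
    rw [hl]
    rcases Nat.eq_zero_or_pos n with h | h
    · subst h; simp
    · have : n ≤ n * n := Nat.le_mul_of_pos_left n h
      omega
  generalize hL : (List.range (w.length + 1)).filter (fun m => decide (m * m = w.length)) = L at hmem ⊢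
  have hall : ∀ m ∈ L, m = n := by
    intro m hm
    rw [← hL, List.mem_filter] at hm
    have : m * m = n * n := by rw [← hl]; exact of_decide_eq_true hm.2
    exact Nat.mul_self_inj.1 this
  cases L with
  | nil => simp at hmem
  | cons a t => exact hall a (List.mem_cons_self ..)

/-- (TF4-K10) PROOF. From the four lemmas. -/
theorem code_iff (w : List Bool) : w ∈ TwoF4 ↔
    matB (side w) w = true ∧ ∃ F, IsFac (gr (side w) w) F := by
  constructor
  · rintro ⟨n, G, rfl, F, hF⟩
    obtain ⟨h1, h2⟩ := matB_code G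
    rw [side_eq h1]
    refine ⟨h1, ?_⟩
    rw [h2]
    exact ⟨F, hF⟩
  · rintro ⟨h1, F, hF⟩
    exact ⟨side w, gr (side w) w, (code_gr h1).symm, F, hF⟩

theorem facB_iff' {n : ℕ} {w c : List Bool} : facB n w c = true ↔
    matB n c = true ∧ ∀ i < n, ((∀ j < n, bit n c i j = true → bit n w i j = true) ∧
      ((List.range n).filter (fun j => bit n c i j)).length = 2) ∧
      ∀ j < n, ∀ k < n, ∀ l < n, bit n c i j = true → bit n c j k = true → bit n c k l = true →
        bit n c l i = true → i = k ∨ j = l := by
  unfold facB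
  simp only [Bool.and_eq_true, decide_eq_true_eq, List.all_eq_true, List.mem_range,
    Bool.or_eq_true, Bool.not_eq_true']
  have hb : ∀ (b : Bool) (p : Prop), (b = false ∨ p) ↔ (b = true → p) := by
    intro b p
    cases b <;> simp
  have hb4 : ∀ (b1 b2 b3 b4 : Bool) (p q : Prop), (((((b1 = false ∨ b2 = false) ∨ b3 = false) ∨ b4 = false) ∨ p) ∨ q) ↔
      (b1 = true → b2 = true → b3 = true → b4 = true → (p ∨ q)) := by
    intro b1 b2 b3 b4 p q
    cases b1 <;> cases b2 <;> cases b3 <;> cases b4 <;> simp
  simp only [hb4]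
  simp only [hb]

theorem ncard_filter {n : ℕ} (p : ℕ → Bool) :
    {u : Fin n | p u = true}.ncard = ((List.range n).filter p).length := by
  rw [← List.toFinset_card_of_nodup (List.nodup_range.filter _), Set.ncard_eq_toFinset_card']
  rw [← Finset.card_map Fin.valEmbedding]
  congr 1
  ext j
  simp only [Finset.mem_map, Set.mem_toFinset, Set.mem_setOf_eq, Fin.valEmbedding_apply, List.mem_toFinset,
    List.mem_filter, List.mem_range]
  constructor
  · rintro ⟨u, hu, rfl⟩
    exact ⟨u.2, hu⟩
  · rintro ⟨h1, h2⟩
    exact ⟨⟨j, h1⟩, h2, rfl⟩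

/-- (TF4-K10) PROOF. (→) `c := code F`: `matB` by `matB_code`, `bit n c i j = decide (F.Adj i j)`; `F ≤ gr n w`; the list `(List.range n).filter (fun j => bit n c i j)` has no repetition and its
elements are the `j < n` with `F.Adj i j`, so its length is `{u | F.Adj i u}.ncard = 2`; squares by `IsFac.free`. (←) `F := gr n c`, the same in the other direction. -/
theorem facB_iff {n : ℕ} {w : List Bool} (hw : matB n w = true) :
    (∃ F, IsFac (gr n w) F) ↔ ∃ c : List Bool, facB n w c = true := by
  have key : ∀ c : List Bool, matB n c = true → (facB n w c = true ↔ IsFac (gr n w) (gr n c)) := by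
    intro c hc
    have hn : ∀ i : Fin n, {u | (gr n c).Adj i u}.ncard = ((List.range n).filter (fun j => bit n c i j)).length := by
      intro i
      rw [← ncard_filter]
      congr 1
      ext u
      exact adj_gr hc i u
    rw [facB_iff']
    constructor
    · rintro ⟨-, h⟩
      refine ⟨?_, ?_, ?_⟩
      · intro i j hij
        rw [adj_gr hc] at hij
        rw [adj_gr hw]
        exact (h i i.2).1.1 j j.2 hij
      · intro i
        rw [hn]
        exact (h i i.2).1.2
      · intro a b d e h1 h2 h3 h4
        rw [adj_gr hc] at h1 h2 h3 h4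
        rcases (h a a.2).2 b b.2 d d.2 e e.2 h1 h2 h3 h4 with h5 | h5
        · left; exact Fin.ext h5
        · right; exact Fin.ext h5
    · intro h
      refine ⟨hc, ?_⟩
      intro i hi
      refine ⟨⟨?_, ?_⟩, ?_⟩
      · intro j hj hij
        have := h.le ((adj_gr hc ⟨i, hi⟩ ⟨j, hj⟩).2 hij)
        exact (adj_gr hw ⟨i, hi⟩ ⟨j, hj⟩).1 this
      · have := h.two ⟨i, hi⟩
        rw [hn] at this
        exact this
      · intro j hj k hk l hl h1 h2 h3 h4
        rcases h.free ⟨i, hi⟩ ⟨j, hj⟩ ⟨k, hk⟩ ⟨l, hl⟩ ((adj_gr hc _ _).2 h1) ((adj_gr hc _ _).2 h2)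
          ((adj_gr hc _ _).2 h3) ((adj_gr hc _ _).2 h4) with h5 | h5
        · left; exact congrArg Fin.val h5
        · right; exact congrArg Fin.val h5
  constructor
  · rintro ⟨F, hF⟩
    obtain ⟨h1, h2⟩ := matB_code F
    refine ⟨code F, ?_⟩
    rw [key _ h1, h2]
    exact hF
  · rintro ⟨c, hc⟩
    have hm : matB n c = true := (facB_iff'.1 hc).1
    exact ⟨gr n c, (key c hm).1 hc⟩

theorem facB_len {n : ℕ} {w c : List Bool} (hw : matB n w = true) (h : facB n w c = true) :
    c.length = w.length := by
  rw [(matB_iff'.1 hw).1, (matB_iff'.1 (facB_iff'.1 h).1).1]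

end TF4
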