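import Pool.Agent.TF4.Rep

set_option autoImplicit false

namespace TF4

open Finset Pool.Agent.TFC
open scoped Pointwise Classical

/-- the sum of a list of units is a sum in the additive monoid of sets -/
theorem sumU_eq {V : Type*} [DecidableEq V] (us : List (Finset V × Finset V)) :
    sumU us = (us.map (fun u => Un u.1 u.2)).sum := by
  induction us with
  | nil => rfl
  | cons u us ih =>
    rw [List.map_cons, List.sum_cons, ← ih]
    rfl

/-- invariance under permutations (`List.Perm.sum_eq`, `List.Perm.map`) -/
theorem sumU_perm {V : Type*} [DecidableEq V] {us vs : List (Finset V × Finset V)} (h : us.Perm vs) :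
    sumU us = sumU vs := by
  rw [sumU_eq, sumU_eq]
  exact (h.map _).sum_eq

/-- (TF4-K3) the units of a cluster given by a list and the units of the cluster (`cunits`, `toU` are in
Pool/Agent/TF4/Ver.lean, `CC.units`, `sumU` in Pool/Agent/SQF/Defs.lean, `Rep` in Pool/Agent/TF4/Rep.lean).
PROOF. `k4 X`: `cunits q` is three times `(ls.map val, ls.map val)` and `toU n` of it is `(X, X)`, so both lists of units are equal.
`k2 w w' c L`: `(cunits q).map (toU n) = ls.map (fun l => ({l}, {w, w'})) ++ [({w}, insert c ls.toFinset), ({w'}, {c})]` (the filter
`{v : Fin n | (v : ℕ) ∈ [l.val]}` is `{l}` and so on; `Fin.ext_iff`), and `c.units` is the same with `(L.erase c).toList` in place of `ls`;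
`ls` is a permutation of `(L.erase c).toList` because both have no repetition and the same elements (`List.perm_of_nodup_nodup_toFinset_eq`
or `(List.perm_ext_iff_of_nodup _ _).2`, with `c ∉ ls`); use `sumU_perm` with `List.Perm.map`, `List.Perm.append_right`. -/
theorem sum_cunits {n : ℕ} {q : List ℕ} {c : CC (Fin n)} (h : Rep n q c) (hv : c.Valid) :
    sumU ((cunits q).map (toU n)) = sumU c.units := by
  have hfil : ∀ l : List (Fin n), (univ.filter (fun v : Fin n => (v : ℕ) ∈ l.map Fin.val)) = l.toFinset := by
    intro l
    ext v
    simp only [mem_filter, mem_univ, true_and, List.mem_map, List.mem_toFinset]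
    constructor
    · rintro ⟨y, hy, hxy⟩
      rwa [← Fin.val_injective hxy]
    · intro hx
      exact ⟨v, hx, rfl⟩
  have hU : ∀ l l' : List (Fin n), toU n (l.map Fin.val, l'.map Fin.val) = (l.toFinset, l'.toFinset) := by
    intro l l'
    unfold toU
    rw [← hfil l, ← hfil l']
  cases c with
  | k4 X =>
    obtain ⟨ls, rfl, hn, rfl⟩ := h
    have h1 : cunits (1 :: ls.map Fin.val) = [(ls.map Fin.val, ls.map Fin.val),
        (ls.map Fin.val, ls.map Fin.val), (ls.map Fin.val, ls.map Fin.val)] := rfl
    rw [h1]
    simp only [List.map_cons, List.map_nil, hU, CC.units]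
  | k2 w w' c L =>
    obtain ⟨ls, rfl, hn, hc, rfl⟩ := h
    have h1 : cunits (0 :: w.val :: w'.val :: c.val :: ls.map Fin.val) =
        (ls.map Fin.val).map (fun l => ([l], [w.val, w'.val])) ++
        [([w.val], c.val :: ls.map Fin.val), ([w'.val], [c.val])] := rfl
    rw [h1]
    have h2 : (((ls.map Fin.val).map (fun l => ([l], [w.val, w'.val])) ++
        [([w.val], c.val :: ls.map Fin.val), ([w'.val], [c.val])]).map (toU n)) =
        ls.map (fun l => (({l} : Finset (Fin n)), ({w, w'} : Finset (Fin n)))) ++
        [(({w} : Finset (Fin n)), insert c ls.toFinset), ({w'}, {c})] := by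
      rw [List.map_append, List.map_map, List.map_map]
      congr 1
      · apply List.map_congr_left
        intro l _
        have := hU [l] [w, w']
        simp only [List.map_cons, List.map_nil] at this
        simp only [Function.comp_apply, this]
        simp
      · have e1 := hU [w] (c :: ls)
        have e2 := hU [w'] [c]
        simp only [List.map_cons, List.map_nil] at e1 e2
        simp only [List.map_cons, List.map_nil, e1, e2]
        simp
    rw [h2]
    have h3 : (CC.k2 w w' c (insert c ls.toFinset)).units =
        (((insert c ls.toFinset).erase c).toList.map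
          (fun l => (({l} : Finset (Fin n)), ({w, w'} : Finset (Fin n))))) ++
        [(({w} : Finset (Fin n)), insert c ls.toFinset), ({w'}, {c})] := rfl
    rw [h3]
    apply sumU_perm
    apply List.Perm.append_right
    apply List.Perm.map
    rw [List.perm_ext_iff_of_nodup hn (Finset.nodup_toList _)]
    intro v
    rw [Finset.mem_toList, Finset.mem_erase, Finset.mem_insert, List.mem_toFinset]
    constructor
    · intro hv'
      refine ⟨?_, Or.inr hv'⟩
      rintro rfl
      exact hc hv'
    · rintro ⟨h1, h2 | h2⟩
      · exact absurd h2 h1
      · exact h2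

end TF4
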