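import Pool.Agent.TF4.Ver
import Pool.Agent.Lib.helper60.NPLib

set_option autoImplicit false

/-! [TF4] the verifiers run in polynomial time -/

namespace TF4

open Pool.Agent.Lib.helper60

section

variable {ι : Type} [DEnc ι]

theorem pt_bit {n : ι → ℕ} {w : ι → List Bool} {i j : ι → ℕ} (hn : PT n) (hw : PT w) (hi : PT i)
    (hj : PT j) : PT (fun x => bit (n x) (w x) (i x) (j x)) :=
  PT.getD hw (PT.nadd (PT.nmul hn hi) hj) (PT.const false)

theorem pt_matB {n : ι → ℕ} {w : ι → List Bool} (hn : PT n) (hw : PT w) :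
    PT (fun x => matB (n x) (w x)) := by
  unfold matB
  refine PT.band (PT.neq (PT.length hw) (PT.nmul hn hn)) ?_
  refine PT.all (p := fun y : ι × ℕ => !bit (n y.1) (w y.1) y.2 y.2 &&
    (List.range (n y.1)).all (fun j => decide (bit (n y.1) (w y.1) y.2 j = bit (n y.1) (w y.1) j y.2)))
    (PT.range hn) ?_
  refine PT.band (PT.bnot (pt_bit (hn.comp PT.fst) (hw.comp PT.fst) PT.snd PT.snd)) ?_
  refine PT.all (p := fun z : (ι × ℕ) × ℕ => decide (bit (n z.1.1) (w z.1.1) z.1.2 z.2 =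
    bit (n z.1.1) (w z.1.1) z.2 z.1.2)) (PT.range (hn.comp PT.fst)) ?_
  have hn' : PT (fun z : (ι × ℕ) × ℕ => n z.1.1) := hn.comp PT.fst.p1
  have hw' : PT (fun z : (ι × ℕ) × ℕ => w z.1.1) := hw.comp PT.fst.p1
  exact PT.beq (pt_bit hn' hw' PT.fst.p2 PT.snd) (pt_bit hn' hw' PT.snd PT.fst.p2)

theorem pt_side {w : ι → List Bool} (hw : PT w) : PT (fun x => side (w x)) := by
  unfold side
  refine PT.headD ?_ (PT.const 0)
  refine PT.filter (p := fun y : ι × ℕ => decide (y.2 * y.2 = (w y.1).length))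
    (PT.range (PT.nsucc (PT.length hw))) ?_
  exact PT.neq (PT.nmul PT.snd PT.snd) (PT.length (hw.comp PT.fst))

theorem pt_memB {u : ι → ℕ} {l : ι → List ℕ} (hu : PT u) (hl : PT l) :
    PT (fun x => memB (u x) (l x)) :=
  PT.any (p := fun y : ι × ℕ => decide (y.2 = u y.1)) hl (PT.neq PT.snd (hu.comp PT.fst))

theorem pt_nodupB {l : ι → List ℕ} (hl : PT l) : PT (fun x => nodupB (l x)) := by
  unfold nodupB
  refine PT.all (p := fun y : ι × ℕ => (List.range y.2).all (fun j =>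
    !decide ((l y.1).getD y.2 0 = (l y.1).getD j 0))) (PT.range (PT.length hl)) ?_
  refine PT.all (p := fun z : (ι × ℕ) × ℕ =>
    !decide ((l z.1.1).getD z.1.2 0 = (l z.1.1).getD z.2 0)) (PT.range PT.snd) ?_
  have hl' : PT (fun z : (ι × ℕ) × ℕ => l z.1.1) := hl.comp PT.fst.p1
  exact PT.bnot (PT.neq (PT.getD hl' PT.fst.p2 (PT.const 0)) (PT.getD hl' PT.snd (PT.const 0)))

theorem pt_cedge {q : ι → List ℕ} {u v : ι → ℕ} (hq : PT q) (hu : PT u) (hv : PT v) :
    PT (fun x => cedge (q x) (u x) (v x)) := by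
  unfold cedge
  have g : ∀ k : ℕ, PT (fun x => (q x).getD k 0) := fun k => PT.getD hq (PT.const k) (PT.const 0)
  have d : ∀ k : ℕ, PT (fun x => (q x).drop k) := fun k => PT.drop (PT.const k) hq
  refine PT.ite (PT.neq (g 0) (PT.const 0)) ?_ ?_
  · refine PT.bor ?_ ?_
    · exact PT.band (PT.bor (PT.neq hu (g 1)) (PT.neq hu (g 2))) (pt_memB hv (d 3))
    · exact PT.band (PT.bor (PT.neq hv (g 1)) (PT.neq hv (g 2))) (pt_memB hu (d 3))
  · exact PT.band (PT.band (pt_memB hu (d 1)) (pt_memB hv (d 1))) (PT.bnot (PT.neq hu hv))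

theorem pt_cwf {n : ι → ℕ} {w : ι → List Bool} {q : ι → List ℕ} (hn : PT n) (hw : PT w) (hq : PT q) :
    PT (fun x => cwf (n x) (w x) (q x)) := by
  unfold cwf
  have g : PT (fun x => (q x).getD 0 0) := PT.getD hq (PT.const 0) (PT.const 0)
  have d : PT (fun x => (q x).drop 1) := PT.drop (PT.const 1) hq
  refine PT.band (PT.band (PT.band (pt_nodupB d) ?_) ?_) ?_
  · exact PT.all (p := fun y : ι × ℕ => decide (y.2 < n y.1)) d (PT.nlt PT.snd (hn.comp PT.fst))
  · refine PT.ite (PT.neq g (PT.const 0)) (PT.nle (PT.const 5) (PT.length hq)) ?_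
    exact PT.band (PT.neq g (PT.const 1)) (PT.neq (PT.length hq) (PT.const 5))
  · refine PT.all (p := fun y : ι × ℕ => (List.range (n y.1)).all (fun v =>
      !cedge (q y.1) y.2 v || bit (n y.1) (w y.1) y.2 v)) (PT.range hn) ?_
    refine PT.all (p := fun z : (ι × ℕ) × ℕ => !cedge (q z.1.1) z.1.2 z.2 ||
      bit (n z.1.1) (w z.1.1) z.1.2 z.2) (PT.range (hn.comp PT.fst)) ?_
    have hn' : PT (fun z : (ι × ℕ) × ℕ => n z.1.1) := hn.comp PT.fst.p1
    have hw' : PT (fun z : (ι × ℕ) × ℕ => w z.1.1) := hw.comp PT.fst.p1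
    have hq' : PT (fun z : (ι × ℕ) × ℕ => q z.1.1) := hq.comp PT.fst.p1
    exact PT.bor (PT.bnot (pt_cedge hq' PT.fst.p2 PT.snd)) (pt_bit hn' hw' PT.fst.p2 PT.snd)

theorem pt_cunits {q : ι → List ℕ} (hq : PT q) : PT (fun x => cunits (q x)) := by
  unfold cunits
  have g : ∀ k : ℕ, PT (fun x => (q x).getD k 0) := fun k => PT.getD hq (PT.const k) (PT.const 0)
  have d : ∀ k : ℕ, PT (fun x => (q x).drop k) := fun k => PT.drop (PT.const k) hq
  have s : ∀ {κ : Type} [DEnc κ] {f : κ → ℕ}, PT f → PT (fun x => [f x]) := fun hf =>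
    PT.cons hf (PT.const [])
  refine PT.ite (PT.neq (g 0) (PT.const 0)) ?_ ?_
  · refine PT.append ?_ ?_
    · refine PT.map (g := fun y : ι × ℕ => ([y.2], [(q y.1).getD 1 0, (q y.1).getD 2 0])) (d 4) ?_
      exact PT.pair (s PT.snd) (PT.cons ((g 1).comp PT.fst) (s ((g 2).comp PT.fst)))
    · exact PT.cons (PT.pair (s (g 1)) (d 3)) (PT.cons (PT.pair (s (g 2)) (s (g 3))) (PT.const []))
  · exact PT.cons (PT.pair (d 1) (d 1)) (PT.cons (PT.pair (d 1) (d 1))
      (PT.cons (PT.pair (d 1) (d 1)) (PT.const [])))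

theorem pt_clsB {n : ι → ℕ} {w : ι → List Bool} {c : ι → List (List ℕ)} (hn : PT n) (hw : PT w)
    (hc : PT c) : PT (fun x => clsB (n x) (w x) (c x)) := by
  unfold clsB
  refine PT.band ?_ ?_
  · exact PT.all (p := fun y : ι × List ℕ => cwf (n y.1) (w y.1) y.2) hc
      (pt_cwf (hn.comp PT.fst) (hw.comp PT.fst) PT.snd)
  · refine PT.all (p := fun y : ι × ℕ => (List.range (n y.1)).all (fun v =>
      decide (((c y.1).filter (fun q => cedge q y.2 v)).length ≤ 1))) (PT.range hn) ?_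
    refine PT.all (p := fun z : (ι × ℕ) × ℕ =>
      decide (((c z.1.1).filter (fun q => cedge q z.1.2 z.2)).length ≤ 1)) (PT.range (hn.comp PT.fst)) ?_
    refine PT.nle (PT.length ?_) (PT.const 1)
    refine PT.filter (p := fun t : ((ι × ℕ) × ℕ) × List ℕ => cedge t.2 t.1.1.2 t.1.2) (hc.comp PT.fst.p1) ?_
    exact pt_cedge PT.snd PT.fst.p1.p2 PT.fst.p2

theorem pt_ounits {n : ι → ℕ} {w : ι → List Bool} {c : ι → List (List ℕ)} (hn : PT n) (hw : PT w)
    (hc : PT c) : PT (fun x => ounits (n x) (w x) (c x)) := by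
  unfold ounits
  refine PT.flatMap (g := fun y : ι × ℕ => ((List.range y.2).filter (fun v =>
    bit (n y.1) (w y.1) y.2 v && !(c y.1).any (fun q => cedge q y.2 v))).map (fun v => ([y.2], [v])))
    (PT.range hn) ?_
  refine PT.map (g := fun z : (ι × ℕ) × ℕ => ([z.1.2], [z.2])) ?_ ?_
  · refine PT.filter (p := fun z : (ι × ℕ) × ℕ => bit (n z.1.1) (w z.1.1) z.1.2 z.2 &&
      !(c z.1.1).any (fun q => cedge q z.1.2 z.2)) (PT.range PT.snd) ?_
    refine PT.band (pt_bit (hn.comp PT.fst.p1) (hw.comp PT.fst.p1) PT.fst.p2 PT.snd) (PT.bnot ?_)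
    exact PT.any (p := fun t : ((ι × ℕ) × ℕ) × List ℕ => cedge t.2 t.1.1.2 t.1.2) (hc.comp PT.fst.p1)
      (pt_cedge PT.snd PT.fst.p1.p2 PT.fst.p2)
  · exact PT.pair (PT.cons PT.fst.p2 (PT.const [])) (PT.cons PT.snd (PT.const []))

theorem pt_units {n : ι → ℕ} {w : ι → List Bool} {c : ι → List (List ℕ)} (hn : PT n) (hw : PT w)
    (hc : PT c) : PT (fun x => units (n x) (w x) (c x)) := by
  unfold units
  exact PT.append (PT.flatMap (g := fun y : ι × List ℕ => cunits y.2) hc (pt_cunits PT.snd))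
    (pt_ounits hn hw hc)

theorem pt_compat {a b : ι → ℕ} (ha : PT a) (hb : PT b) : PT (fun x => compat (a x) (b x)) := by
  unfold compat
  exact PT.bor (PT.bor (PT.neq ha (PT.const 0)) (PT.neq hb (PT.const 0))) (PT.neq ha hb)

theorem pt_oddB {l : ι → List ℕ} (hl : PT l) : PT (fun x => oddB (l x)) := by
  unfold oddB
  exact PT.foldl (init := fun _ => false) (g := fun y : ι × Bool × ℕ => !y.2.1) hl (PT.const false)
    (PT.bnot PT.snd.p1) ⟨fun _ => 3, PB.const 3, fun x l₁ l₂ _ => tsize_bool_le _⟩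

theorem pt_labB {n : ι → ℕ} {U : ι → List (List ℕ × List ℕ)} {l : ι → List ℕ} (hn : PT n) (hU : PT U)
    (hl : PT l) : PT (fun x => labB (n x) (U x) (l x)) := by
  unfold labB
  have h2n : PT (fun x => 2 * n x) := PT.nmul (PT.const 2) hn
  refine PT.band (PT.band (PT.band ?_ ?_) ?_) ?_
  · exact PT.neq (PT.length hl) (PT.nadd h2n (PT.nmul (PT.const 2) (PT.length hU)))
  · exact PT.all (p := fun y : ι × ℕ => decide (y.2 ≤ (l y.1).length)) hl
      (PT.nle PT.snd (PT.length (hl.comp PT.fst)))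
  · refine PT.all (p := fun y : ι × ℕ =>
      compat ((l y.1).getD (2 * n y.1 + 2 * y.2) 0) ((l y.1).getD (2 * n y.1 + 2 * y.2 + 1) 0) &&
      ((U y.1).getD y.2 ([], [])).1.all (fun s =>
        compat ((l y.1).getD (2 * n y.1 + 2 * y.2) 0) ((l y.1).getD (2 * s) 0) &&
        compat ((l y.1).getD (2 * n y.1 + 2 * y.2) 0) ((l y.1).getD (2 * s + 1) 0)) &&
      ((U y.1).getD y.2 ([], [])).2.all (fun t =>
        compat ((l y.1).getD (2 * n y.1 + 2 * y.2 + 1) 0) ((l y.1).getD (2 * t) 0) &&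
        compat ((l y.1).getD (2 * n y.1 + 2 * y.2 + 1) 0) ((l y.1).getD (2 * t + 1) 0)))
      (PT.range (PT.length hU)) ?_
    have g : ∀ {κ : Type} [DEnc κ] {f : κ → ι} {k : κ → ℕ}, PT f → PT k →
        PT (fun z => (l (f z)).getD (k z) 0) := fun hf hk => PT.getD (hl.comp hf) hk (PT.const 0)
    have p0 : PT (fun y : ι × ℕ => 2 * n y.1 + 2 * y.2) :=
      PT.nadd (h2n.comp PT.fst) (PT.nmul (PT.const 2) PT.snd)
    have u0 : PT (fun y : ι × ℕ => (U y.1).getD y.2 ([], [])) :=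
      PT.getD (hU.comp PT.fst) PT.snd (PT.const ([], []))
    have dbl : PT (fun z : (ι × ℕ) × ℕ => 2 * z.2) := PT.nmul (PT.const 2) PT.snd
    refine PT.band (PT.band ?_ ?_) ?_
    · exact pt_compat (g PT.fst p0) (g PT.fst (PT.nsucc p0))
    · refine PT.all (p := fun z : (ι × ℕ) × ℕ =>
        compat ((l z.1.1).getD (2 * n z.1.1 + 2 * z.1.2) 0) ((l z.1.1).getD (2 * z.2) 0) &&
        compat ((l z.1.1).getD (2 * n z.1.1 + 2 * z.1.2) 0) ((l z.1.1).getD (2 * z.2 + 1) 0)) u0.p1 ?_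
      exact PT.band (pt_compat (g PT.fst.p1 (p0.comp PT.fst)) (g PT.fst.p1 dbl))
        (pt_compat (g PT.fst.p1 (p0.comp PT.fst)) (g PT.fst.p1 (PT.nsucc dbl)))
    · refine PT.all (p := fun z : (ι × ℕ) × ℕ =>
        compat ((l z.1.1).getD (2 * n z.1.1 + 2 * z.1.2 + 1) 0) ((l z.1.1).getD (2 * z.2) 0) &&
        compat ((l z.1.1).getD (2 * n z.1.1 + 2 * z.1.2 + 1) 0) ((l z.1.1).getD (2 * z.2 + 1) 0)) u0.p2 ?_
      exact PT.band (pt_compat (g PT.fst.p1 (PT.nsucc (p0.comp PT.fst))) (g PT.fst.p1 dbl))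
        (pt_compat (g PT.fst.p1 (PT.nsucc (p0.comp PT.fst))) (g PT.fst.p1 (PT.nsucc dbl)))
  · refine PT.nlt (PT.length ?_) (PT.length ?_)
    · exact PT.filter (p := fun y : ι × ℕ => decide (y.2 = 0)) hl (PT.neq PT.snd (PT.const 0))
    · refine PT.filter (p := fun y : ι × ℕ => !decide (y.2 = 0) &&
        oddB ((l y.1).filter (fun a => decide (a = y.2)))) (PT.range (PT.nsucc (PT.length hl))) ?_
      refine PT.band (PT.bnot (PT.neq PT.snd (PT.const 0))) (pt_oddB ?_)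
      exact PT.filter (p := fun z : (ι × ℕ) × ℕ => decide (z.2 = z.1.2)) (hl.comp PT.fst)
        (PT.neq PT.snd PT.fst.p2)

theorem pt_nums {c : ι → List Bool} (hc : PT c) : PT (fun x => nums (c x)) := by
  unfold nums
  refine PT.reverse (PT.p2 ?_)
  refine PT.foldl_lin (init := fun _ : ι => ((0, []) : ℕ × List ℕ))
    (g := fun y : ι × (ℕ × List ℕ) × Bool => if y.2.2 = true then (y.2.1.1 + 1, y.2.1.2)
      else (0, y.2.1.1 :: y.2.1.2)) hc (PT.const _) ?_ 4 ?_
  · refine PT.ite (PT.beq PT.snd.p2 (PT.const true)) ?_ ?_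
    · exact PT.pair (PT.nsucc PT.snd.p1.p1) PT.snd.p1.p2
    · exact PT.pair (PT.const 0) (PT.cons PT.snd.p1.p1 PT.snd.p1.p2)
  · rintro x ⟨s1, s2⟩ b
    split_ifs
    · simp only [tsize_pair, tsize_nat]
      omega
    · simp only [tsize_pair, tsize_nat, tsize_cons]
      omega

theorem pt_groups {l : ι → List ℕ} (hl : PT l) : PT (fun x => groups (l x)) := by
  unfold groups
  refine PT.reverse (PT.p2 ?_)
  refine PT.foldl (init := fun _ : ι => (([], []) : List ℕ × List (List ℕ)))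
    (g := fun y : ι × (List ℕ × List (List ℕ)) × ℕ => if y.2.2 = 0 then ([], y.2.1.1.reverse :: y.2.1.2)
      else ((y.2.2 - 1) :: y.2.1.1, y.2.1.2)) hl (PT.const _) ?_ ?_
  · refine PT.ite (PT.neq PT.snd.p2 (PT.const 0)) ?_ ?_
    · exact PT.pair (PT.const []) (PT.cons (PT.reverse PT.snd.p1.p1) PT.snd.p1.p2)
    · exact PT.pair (PT.cons (PT.npred PT.snd.p2) PT.snd.p1.p1) PT.snd.p1.p2
  · refine ⟨fun x => tsize (l x) + 3, hl.size.add (PB.const 3), ?_⟩
    intro x l₁ l₂ h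
    have key : ∀ (u : List ℕ) (s : List ℕ × List (List ℕ)),
        tsize (u.foldl (fun (s : List ℕ × List (List ℕ)) m =>
          if m = 0 then ([], s.1.reverse :: s.2) else ((m - 1) :: s.1, s.2)) s) + 1 ≤
        tsize s + tsize u := by
      intro u
      induction u with
      | nil => intro s; simp
      | cons m u ih =>
        intro s
        rw [List.foldl_cons]
        refine (ih _).trans ?_
        obtain ⟨s1, s2⟩ := s
        have hm := tsize_pos m
        split_ifs with h0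
        · simp only [tsize_pair, tsize_cons, tsize_nil, tsize_reverse]
          omega
        · simp only [tsize_pair, tsize_cons, tsize_nat]
          omega
    have h1 := key l₁ ([], [])
    have h2 := tsize_append l₁ l₂
    rw [h] at h2
    have h3 := tsize_pos l₂
    have h4 : tsize (([], []) : List ℕ × List (List ℕ)) = 3 := by simp
    rw [h4] at h1
    show tsize (l₁.foldl (fun (s : List ℕ × List (List ℕ)) m =>
          if m = 0 then ([], s.1.reverse :: s.2) else ((m - 1) :: s.1, s.2)) ([], [])) ≤ tsize (l x) + 3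
    omega

theorem pt_facB {n : ι → ℕ} {w c : ι → List Bool} (hn : PT n) (hw : PT w) (hc : PT c) :
    PT (fun x => facB (n x) (w x) (c x)) := by
  unfold facB
  refine PT.band (pt_matB hn hc) ?_
  refine PT.all (p := fun y : ι × ℕ =>
    (List.range (n y.1)).all (fun j => !bit (n y.1) (c y.1) y.2 j || bit (n y.1) (w y.1) y.2 j) &&
    decide (((List.range (n y.1)).filter (fun j => bit (n y.1) (c y.1) y.2 j)).length = 2) &&
    (List.range (n y.1)).all (fun j => (List.range (n y.1)).all (fun k => (List.range (n y.1)).all (fun l =>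
      !bit (n y.1) (c y.1) y.2 j || !bit (n y.1) (c y.1) j k || !bit (n y.1) (c y.1) k l ||
      !bit (n y.1) (c y.1) l y.2 || decide (y.2 = k) || decide (j = l))))) (PT.range hn) ?_
  have b : ∀ {κ : Type} [DEnc κ] {f : κ → ι} {i j : κ → ℕ}, PT f → PT i → PT j →
      PT (fun z => bit (n (f z)) (c (f z)) (i z) (j z)) := fun hf hi hj =>
    pt_bit (hn.comp hf) (hc.comp hf) hi hj
  refine PT.band (PT.band ?_ ?_) ?_
  · refine PT.all (p := fun z : (ι × ℕ) × ℕ => !bit (n z.1.1) (c z.1.1) z.1.2 z.2 ||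
      bit (n z.1.1) (w z.1.1) z.1.2 z.2) (PT.range (hn.comp PT.fst)) ?_
    exact PT.bor (PT.bnot (b PT.fst.p1 PT.fst.p2 PT.snd))
      (pt_bit (hn.comp PT.fst.p1) (hw.comp PT.fst.p1) PT.fst.p2 PT.snd)
  · refine PT.neq (PT.length ?_) (PT.const 2)
    exact PT.filter (p := fun z : (ι × ℕ) × ℕ => bit (n z.1.1) (c z.1.1) z.1.2 z.2)
      (PT.range (hn.comp PT.fst)) (b PT.fst.p1 PT.fst.p2 PT.snd)
  · refine PT.all (p := fun z : (ι × ℕ) × ℕ => (List.range (n z.1.1)).all (fun k =>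
      (List.range (n z.1.1)).all (fun l =>
      !bit (n z.1.1) (c z.1.1) z.1.2 z.2 || !bit (n z.1.1) (c z.1.1) z.2 k ||
      !bit (n z.1.1) (c z.1.1) k l || !bit (n z.1.1) (c z.1.1) l z.1.2 ||
      decide (z.1.2 = k) || decide (z.2 = l)))) (PT.range (hn.comp PT.fst)) ?_
    refine PT.all (p := fun t : ((ι × ℕ) × ℕ) × ℕ => (List.range (n t.1.1.1)).all (fun l =>
      !bit (n t.1.1.1) (c t.1.1.1) t.1.1.2 t.1.2 || !bit (n t.1.1.1) (c t.1.1.1) t.1.2 t.2 ||
      !bit (n t.1.1.1) (c t.1.1.1) t.2 l || !bit (n t.1.1.1) (c t.1.1.1) l t.1.1.2 ||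
      decide (t.1.1.2 = t.2) || decide (t.1.2 = l))) (PT.range (hn.comp PT.fst.p1)) ?_
    refine PT.all (p := fun r : (((ι × ℕ) × ℕ) × ℕ) × ℕ =>
      !bit (n r.1.1.1.1) (c r.1.1.1.1) r.1.1.1.2 r.1.1.2 || !bit (n r.1.1.1.1) (c r.1.1.1.1) r.1.1.2 r.1.2 ||
      !bit (n r.1.1.1.1) (c r.1.1.1.1) r.1.2 r.2 || !bit (n r.1.1.1.1) (c r.1.1.1.1) r.2 r.1.1.1.2 ||
      decide (r.1.1.1.2 = r.1.2) || decide (r.1.1.2 = r.2)) (PT.range (hn.comp PT.fst.p1.p1)) ?_
    have f : PT (fun r : (((ι × ℕ) × ℕ) × ℕ) × ℕ => r.1.1.1.1) := PT.fst.p1.p1.p1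
    have a1 : PT (fun r : (((ι × ℕ) × ℕ) × ℕ) × ℕ => r.1.1.1.2) := PT.fst.p1.p1.p2
    have a2 : PT (fun r : (((ι × ℕ) × ℕ) × ℕ) × ℕ => r.1.1.2) := PT.fst.p1.p2
    have a3 : PT (fun r : (((ι × ℕ) × ℕ) × ℕ) × ℕ => r.1.2) := PT.fst.p2
    have a4 : PT (fun r : (((ι × ℕ) × ℕ) × ℕ) × ℕ => r.2) := PT.snd
    exact PT.bor (PT.bor (PT.bor (PT.bor (PT.bor (PT.bnot (b f a1 a2)) (PT.bnot (b f a2 a3)))
      (PT.bnot (b f a3 a4))) (PT.bnot (b f a4 a1))) (PT.neq a1 a3)) (PT.neq a2 a4)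

end

theorem PT_verYes : PT verYes := by
  unfold verYes
  have s := pt_side (ι := List Bool × List Bool) PT.fst
  exact PT.band (pt_matB s PT.fst) (pt_facB s PT.fst PT.snd)

theorem PT_verNo : PT verNo := by
  unfold verNo
  have s := pt_side (ι := List Bool × List Bool) PT.fst
  have d : PT (fun p : List Bool × List Bool => decode p.2) := by
    unfold decode
    exact pt_groups (pt_nums PT.snd)
  refine PT.bor (PT.bnot (pt_matB s PT.fst)) (PT.band (pt_clsB s PT.fst (PT.tail d)) ?_)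
  exact pt_labB s (pt_units s PT.fst (PT.tail d)) (PT.headD d (PT.const []))

end TF4
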