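import Pool.Agent.TF4.Ver

set_option autoImplicit false

namespace TF4

private lemma K11_rep (a : ℕ) (s : ℕ) (acc : List ℕ) :
    (List.replicate a true).foldl (fun (s : ℕ × List ℕ) b =>
      if b = true then (s.1 + 1, s.2) else (0, s.1 :: s.2)) (s, acc) = (s + a, acc) := by
  induction a generalizing s with
  | zero => simp
  | succ a ih =>
    rw [List.replicate_succ, List.foldl_cons]
    simp only [if_true]
    rw [ih]
    congr 1
    omega

private lemma K11_nums (l : List ℕ) (acc : List ℕ) :
    (l.flatMap (fun a => List.replicate a true ++ [false])).foldl (fun (s : ℕ × List ℕ) b =>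
      if b = true then (s.1 + 1, s.2) else (0, s.1 :: s.2)) (0, acc) = (0, l.reverse ++ acc) := by
  induction l generalizing acc with
  | nil => simp
  | cons a l ih =>
    rw [List.flatMap_cons, List.foldl_append, List.foldl_append, K11_rep]
    simp only [List.foldl_cons, List.foldl_nil, Bool.false_eq_true, if_false]
    rw [ih]
    simp

/-- (TF4-K11) numbers in unary. PROOF. Induction on `l` with a general accumulator: the fold over `replicate a true ++ [false]` from `(s, acc)` is `(0, (s + a) :: acc)`. -/
theorem nums_encode (l : List ℕ) : nums (l.flatMap (fun a => List.replicate a true ++ [false])) = l := by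
  rw [nums, K11_nums]
  simp

private lemma K11_grp (l : List ℕ) (s : List ℕ) (acc : List (List ℕ)) :
    (l.map (· + 1)).foldl (fun (s : List ℕ × List (List ℕ)) m =>
      if m = 0 then ([], s.1.reverse :: s.2) else ((m - 1) :: s.1, s.2)) (s, acc) =
      (l.reverse ++ s, acc) := by
  induction l generalizing s with
  | nil => simp
  | cons a l ih =>
    rw [List.map_cons, List.foldl_cons]
    simp only [Nat.add_one_ne_zero, if_false, Nat.add_sub_cancel]
    rw [ih]
    simp

private lemma K11_groups (g : List (List ℕ)) (acc : List (List ℕ)) :
    (g.flatMap (fun l => l.map (· + 1) ++ [0])).foldl (fun (s : List ℕ × List (List ℕ)) m =>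
      if m = 0 then ([], s.1.reverse :: s.2) else ((m - 1) :: s.1, s.2)) ([], acc) =
      ([], g.reverse ++ acc) := by
  induction g generalizing acc with
  | nil => simp
  | cons a l ih =>
    rw [List.flatMap_cons, List.foldl_append, List.foldl_append, K11_grp]
    simp only [List.foldl_cons, List.foldl_nil, if_true]
    rw [ih]
    simp

/-- (TF4-K11) groups. PROOF. Induction on `g` with a general accumulator: the fold over `l.map (· + 1) ++ [0]` from `(s, acc)` is `([], (s.reverse ++ l) :: acc)`. -/
theorem groups_encode (g : List (List ℕ)) : groups (g.flatMap (fun l => l.map (· + 1) ++ [0])) = g := by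
  rw [groups, K11_groups]
  simp

private lemma K11_enc (g : List (List ℕ)) : encode g =
    (g.flatMap (fun l => l.map (· + 1) ++ [0])).flatMap (fun a => List.replicate a true ++ [false]) := by
  induction g with
  | nil => simp [encode]
  | cons a l ih =>
    rw [List.flatMap_cons, List.flatMap_append, ← ih, encode, encode, List.flatMap_cons]
    congr 1
    rw [List.flatMap_append, List.flatMap_map]
    simp

/-- (TF4-K11) PROOF. `encode g` is the unary code of the list of numbers `g.flatMap (fun l => l.map (· + 1) ++ [0])`. -/
theorem decode_encode (g : List (List ℕ)) : decode (encode g) = g := by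
  rw [decode, K11_enc, nums_encode, groups_encode]

/-- (TF4-K11) PROOF. `List.length_flatMap`, `List.sum_le_card_nsmul` twice. -/
theorem encode_length (g : List (List ℕ)) (a b m : ℕ) (h1 : g.length ≤ a) (h2 : ∀ l ∈ g, l.length ≤ b)
    (h3 : ∀ l ∈ g, ∀ x ∈ l, x ≤ m) : (encode g).length ≤ a * (b * (m + 2) + 1) := by
  have key : ∀ l ∈ g, (l.flatMap (fun m => List.replicate (m + 1) true ++ [false]) ++ [false]).length
      ≤ b * (m + 2) + 1 := by
    intro l hl
    rw [List.length_append, List.length_flatMap]
    have h4 := List.sum_le_card_nsmul
      (l.map (fun m => (List.replicate (m + 1) true ++ [false]).length)) (m + 2) (by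
        intro x hx
        rw [List.mem_map] at hx
        obtain ⟨y, hy, rfl⟩ := hx
        have := h3 l hl y hy
        simp only [List.length_append, List.length_replicate, List.length_cons, List.length_nil]
        omega)
    rw [List.length_map, smul_eq_mul] at h4
    have h5 : l.length * (m + 2) ≤ b * (m + 2) := Nat.mul_le_mul_right _ (h2 l hl)
    simp only [List.length_cons, List.length_nil]
    omega
  rw [encode, List.length_flatMap]
  have h4 := List.sum_le_card_nsmul
    (g.map (fun l => (l.flatMap (fun m => List.replicate (m + 1) true ++ [false]) ++ [false]).length))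
    (b * (m + 2) + 1) (by
      intro x hx
      rw [List.mem_map] at hx
      obtain ⟨y, hy, rfl⟩ := hx
      exact key y hy)
  rw [List.length_map, smul_eq_mul] at h4
  exact h4.trans (Nat.mul_le_mul_right _ h1)

end TF4
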