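import Pool.Agent.TF4.K7
import Pool.Agent.TFC.GG
import Pool.Agent.TFC.Cert

set_option autoImplicit false

namespace TF4

open Finset Pool.Agent.TFC
open scoped Pointwise Classical

theorem compat_iff (a b : ℕ) : compat a b = true ↔ (a ≠ 0 → b ≠ 0 → a = b) := by
  unfold compat
  simp only [Bool.or_eq_true, decide_eq_true_eq]
  tauto

theorem labB_iff' {n : ℕ} {U : List (List ℕ × List ℕ)} {lab : List ℕ} : labB n U lab = true ↔
    lab.length = 2 * n + 2 * U.length ∧ (∀ a ∈ lab, a ≤ lab.length) ∧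
    (∀ i < U.length,
      (lab.getD (2 * n + 2 * i) 0 ≠ 0 → lab.getD (2 * n + 2 * i + 1) 0 ≠ 0 →
        lab.getD (2 * n + 2 * i) 0 = lab.getD (2 * n + 2 * i + 1) 0) ∧
      (∀ s ∈ (U.getD i ([], [])).1, (lab.getD (2 * n + 2 * i) 0 ≠ 0 → lab.getD (2 * s) 0 ≠ 0 →
        lab.getD (2 * n + 2 * i) 0 = lab.getD (2 * s) 0) ∧
        (lab.getD (2 * n + 2 * i) 0 ≠ 0 → lab.getD (2 * s + 1) 0 ≠ 0 →
        lab.getD (2 * n + 2 * i) 0 = lab.getD (2 * s + 1) 0)) ∧
      (∀ s ∈ (U.getD i ([], [])).2, (lab.getD (2 * n + 2 * i + 1) 0 ≠ 0 → lab.getD (2 * s) 0 ≠ 0 →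
        lab.getD (2 * n + 2 * i + 1) 0 = lab.getD (2 * s) 0) ∧
        (lab.getD (2 * n + 2 * i + 1) 0 ≠ 0 → lab.getD (2 * s + 1) 0 ≠ 0 →
        lab.getD (2 * n + 2 * i + 1) 0 = lab.getD (2 * s + 1) 0))) ∧
    (lab.filter (fun a => decide (a = 0))).length <
    ((List.range (lab.length + 1)).filter (fun m => !decide (m = 0) &&
      oddB (lab.filter (fun a => decide (a = m))))).length := by
  unfold labB
  simp only [Bool.and_eq_true, decide_eq_true_eq, List.all_eq_true, List.mem_range, compat_iff, and_assoc]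

theorem gg_adj_iff {n : ℕ} (us : List (Finset (Fin n) × Finset (Fin n)))
    (f : (Fin n × Bool) ⊕ (Fin us.length × Bool) → ℕ) :
    (∀ a b, (gg us).Adj a b → f a ≠ 0 → f b ≠ 0 → f a = f b) ↔
    ∀ i : Fin us.length, (f (.inr (i, false)) ≠ 0 → f (.inr (i, true)) ≠ 0 →
      f (.inr (i, false)) = f (.inr (i, true))) ∧
      (∀ v ∈ us[i].1, ∀ b, f (.inr (i, false)) ≠ 0 → f (.inl (v, b)) ≠ 0 →
        f (.inr (i, false)) = f (.inl (v, b))) ∧
      (∀ v ∈ us[i].2, ∀ b, f (.inr (i, true)) ≠ 0 → f (.inl (v, b)) ≠ 0 →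
        f (.inr (i, true)) = f (.inl (v, b))) := by
  constructor
  · intro h i
    refine ⟨?_, ?_, ?_⟩
    · apply h
      unfold gg
      rw [SimpleGraph.fromRel_adj]
      exact ⟨by simp, Or.inl rfl⟩
    · intro v hv b
      apply h
      unfold gg
      rw [SimpleGraph.fromRel_adj]
      exact ⟨by simp, Or.inl hv⟩
    · intro v hv b
      apply h
      unfold gg
      rw [SimpleGraph.fromRel_adj]
      exact ⟨by simp, Or.inl hv⟩
  · intro h a b hab ha hb
    unfold gg at hab
    rw [SimpleGraph.fromRel_adj] at hab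
    obtain ⟨-, hab⟩ := hab
    rcases hab with hab | hab
    · rcases a with a | ⟨i, _ | _⟩
      · exact absurd hab id
      · rcases b with ⟨v, b⟩ | ⟨j, _ | _⟩
        · exact (h i).2.1 v hab b ha hb
        · exact absurd hab id
        · have e : i = j := hab
          subst e
          exact (h i).1 ha hb
      · rcases b with ⟨v, b⟩ | ⟨j, _ | _⟩
        · exact (h i).2.2 v hab b ha hb
        · exact absurd hab id
        · exact absurd hab id
    · rcases b with b | ⟨i, _ | _⟩
      · exact absurd hab id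
      · rcases a with ⟨v, b⟩ | ⟨j, _ | _⟩
        · exact ((h i).2.1 v hab b hb ha).symm
        · exact absurd hab id
        · have e : i = j := hab
          subst e
          exact ((h i).1 hb ha).symm
      · rcases a with ⟨v, b⟩ | ⟨j, _ | _⟩
        · exact ((h i).2.2 v hab b hb ha).symm
        · exact absurd hab id
        · exact absurd hab id

theorem card_nodes (n k : ℕ) : Fintype.card ((Fin n × Bool) ⊕ (Fin k × Bool)) = 2 * n + 2 * k := by
  simp only [Fintype.card_sum, Fintype.card_prod, Fintype.card_bool, Fintype.card_fin]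
  ring

theorem count_zero {n k : ℕ} (lab : List ℕ) (hl : lab.length = 2 * n + 2 * k)
    (f : (Fin n × Bool) ⊕ (Fin k × Bool) → ℕ) (hf : ∀ x, lab.getD (nd n k x) 0 = f x) (m : ℕ) :
    (lab.filter (fun a => decide (a = m))).length = #{a | f a = m} := by
  rw [count_nodes lab hl]
  congr 1
  ext x
  simp only [Finset.mem_filter, Finset.mem_univ, true_and, hf, decide_eq_true_eq]

theorem count_odd {n k : ℕ} (lab : List ℕ) (hl : lab.length = 2 * n + 2 * k)
    (f : (Fin n × Bool) ⊕ (Fin k × Bool) → ℕ) (hf : ∀ x, lab.getD (nd n k x) 0 = f x) :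
    ((List.range (lab.length + 1)).filter (fun m => !decide (m = 0) &&
      oddB (lab.filter (fun a => decide (a = m))))).length =
    #{l ∈ Finset.Icc 1 (2 * n + 2 * k) | Odd #{a | f a = l}} := by
  rw [← List.toFinset_card_of_nodup (List.nodup_range.filter _)]
  congr 1
  ext m
  rw [List.mem_toFinset, List.mem_filter, List.mem_range, Finset.mem_filter, Finset.mem_Icc, hl]
  rw [Bool.and_eq_true, oddB_iff, count_zero lab hl f hf]
  simp only [Bool.not_eq_true', decide_eq_false_iff_not]
  constructor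
  · rintro ⟨h1, h2, h3⟩
    exact ⟨⟨by omega, by omega⟩, h3⟩
  · rintro ⟨⟨h1, h2⟩, h3⟩
    exact ⟨by omega, by omega, h3⟩

theorem lab_core (n : ℕ) (U : List (List ℕ × List ℕ)) (hU : ∀ u ∈ U, (∀ s ∈ u.1, s < n) ∧ ∀ t ∈ u.2, t < n)
    (us : List (Finset (Fin n) × Finset (Fin n))) (hus : us = U.map (toU n)) (lab : List ℕ)
    (hl : lab.length = 2 * n + 2 * us.length)
    (f : (Fin n × Bool) ⊕ (Fin us.length × Bool) → ℕ) (hf : ∀ x, lab.getD (nd n us.length x) 0 = f x) :
    labB n U lab = true ↔ (∀ a, f a ≤ 2 * n + 2 * us.length) ∧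
      (∀ a b, (gg us).Adj a b → f a ≠ 0 → f b ≠ 0 → f a = f b) ∧
      #{a | f a = 0} < #{l ∈ Finset.Icc 1 (2 * n + 2 * us.length) | Odd #{a | f a = l}} := by
  have hlen : us.length = U.length := by rw [hus, List.length_map]
  rw [labB_iff', gg_adj_iff, count_odd lab hl f hf, count_zero lab hl f hf]
  have e1 : (∀ a ∈ lab, a ≤ lab.length) ↔ ∀ a, f a ≤ 2 * n + 2 * us.length := by
    constructor
    · intro h a
      rw [← hf a, ← hl]
      rw [List.getD_eq_getElem _ _ (by rw [hl]; exact nd_lt a)]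
      exact h _ (List.getElem_mem _)
    · intro h a ha
      obtain ⟨i, hi, rfl⟩ := List.getElem_of_mem ha
      obtain ⟨x, hx⟩ := nd_surj (n := n) (k := us.length) (m := i) (by rw [← hl]; exact hi)
      have := h x
      rw [← hf x, hx, List.getD_eq_getElem _ _ hi] at this
      rw [hl]
      exact this
  have g1 : ∀ (i : ℕ) (hi : i < us.length), lab.getD (2 * n + 2 * i) 0 = f (.inr (⟨i, hi⟩, false)) := by
    intro i hi
    rw [← hf]
    simp [nd]
  have g2 : ∀ (i : ℕ) (hi : i < us.length), lab.getD (2 * n + 2 * i + 1) 0 = f (.inr (⟨i, hi⟩, true)) := by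
    intro i hi
    rw [← hf]
    simp [nd]
  have g3 : ∀ (s : ℕ) (hs : s < n), lab.getD (2 * s) 0 = f (.inl (⟨s, hs⟩, false)) := by
    intro s hs
    rw [← hf]
    simp [nd]
  have g4 : ∀ (s : ℕ) (hs : s < n), lab.getD (2 * s + 1) 0 = f (.inl (⟨s, hs⟩, true)) := by
    intro s hs
    rw [← hf]
    simp [nd]
  have u1 : ∀ (i : ℕ) (hi : i < us.length), us[i] = toU n (U.getD i ([], [])) := by
    intro i hi
    subst hus
    rw [List.getElem_map, List.getD_eq_getElem _ _ (by rw [← hlen]; exact hi)]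
  have u2 : ∀ (i : ℕ) (_ : i < us.length), U.getD i ([], []) ∈ U := by
    intro i hi
    rw [List.getD_eq_getElem _ _ (by rw [← hlen]; exact hi)]
    exact List.getElem_mem _
  have m1 : ∀ (u : List ℕ × List ℕ) (v : Fin n), v ∈ (toU n u).1 ↔ (v : ℕ) ∈ u.1 := by
    intro u v
    simp [toU]
  have m2 : ∀ (u : List ℕ × List ℕ) (v : Fin n), v ∈ (toU n u).2 ↔ (v : ℕ) ∈ u.2 := by
    intro u v
    simp [toU]
  have e0 : lab.length = 2 * n + 2 * U.length ↔ True := by
    rw [hl, hlen]
    simp
  rw [e0, e1, true_and]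
  refine and_congr Iff.rfl (and_congr ?_ Iff.rfl)
  constructor
  · intro h i
    obtain ⟨h1, h2, h3⟩ := h i (by rw [← hlen]; exact i.2)
    rw [g1 i i.2, g2 i i.2] at h1
    rw [g1 i i.2] at h2
    rw [g2 i i.2] at h3
    refine ⟨h1, ?_, ?_⟩
    · intro v hv b
      have hv' : v ∈ (toU n (U.getD i ([], []))).1 := by
        rw [← u1 i i.2]; exact hv
      rw [m1] at hv'
      obtain ⟨h4, h5⟩ := h2 v hv'
      rw [g3 v v.2] at h4
      rw [g4 v v.2] at h5
      cases b
      · exact h4
      · exact h5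
    · intro v hv b
      have hv' : v ∈ (toU n (U.getD i ([], []))).2 := by
        rw [← u1 i i.2]; exact hv
      rw [m2] at hv'
      obtain ⟨h4, h5⟩ := h3 v hv'
      rw [g3 v v.2] at h4
      rw [g4 v v.2] at h5
      cases b
      · exact h4
      · exact h5
  · intro h i hi
    have hi' : i < us.length := by rw [hlen]; exact hi
    obtain ⟨h1, h2, h3⟩ := h ⟨i, hi'⟩
    rw [g1 i hi', g2 i hi']
    refine ⟨h1, ?_, ?_⟩
    · intro s hs
      have hs' : s < n := (hU _ (u2 i hi')).1 s hs
      have hv : (⟨s, hs'⟩ : Fin n) ∈ us[i].1 := by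
        rw [u1 i hi', m1]; exact hs
      rw [g3 s hs', g4 s hs']
      exact ⟨h2 _ hv false, h2 _ hv true⟩
    · intro s hs
      have hs' : s < n := (hU _ (u2 i hi')).2 s hs
      have hv : (⟨s, hs'⟩ : Fin n) ∈ us[i].2 := by
        rw [u1 i hi', m2]; exact hs
      rw [g3 s hs', g4 s hs']
      exact ⟨h3 _ hv false, h3 _ hv true⟩

/-- (TF4-K8) barriers. `labB`, `compat`, `oddB`, `toU` are in Pool/Agent/TF4/Ver.lean; K7 has `nd`, `count_nodes`, `exists_list`, `oddB_iff`;
Pool/Agent/SQF/Stubs.lean has `gg`, `gg_iff`, `tutte_cert` (use them as they stand; `V = Fin n`).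
PROOF. `gg_iff` for `us := U.map (toU n)` and `tutte_cert` for `gg us` reduce the left side to: there is `f` on the nodes
`(Fin n × Bool) ⊕ (Fin us.length × Bool)` with values at most the number `N` of nodes, constant on adjacent nodes with nonzero labels, with
`#{f = 0} < #{l ∈ Icc 1 N | Odd #{f = l}}`. `us.length = U.length` (`List.length_map`; it is easiest to write `k := us.length`, `hk : k = U.length`), `N = 2 n + 2 k`
(`Fintype.card_sum`, `Fintype.card_prod`, `Fintype.card_bool`). Lists `lab` of length `2 n + 2 k` and functions `f` correspond: `f x = lab.getD (nd n k x) 0`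
(`exists_list` for one direction). Under this: the first two checks of `labB` are the length and `f x ≤ N` (every entry of `lab` is `f x` for some `x`, `nd_surj`);
the third check says that `f` is compatible on all adjacent nodes of `gg us` (`gg` is `fromRel`, three kinds of edges `p_i q_i`, `p_i (v, b)` with `(v : ℕ) ∈ U[i].1`,
`q_i (v, b)` with `(v : ℕ) ∈ U[i].2`; `us[i] = toU n U[i]`, membership in `toU` is membership of the value in the list; `hU`: all entries are `< n`, so quantifying over the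
entries of the list is quantifying over `v : Fin n`; `nd n k (.inl (v, b))` is `2 v` or `2 v + 1`, `nd n k (.inr (i, b))` is `2 n + 2 i` or `2 n + 2 i + 1`);
the last check is the inequality of the cardinalities by `count_nodes` (`p a := decide (a = 0)` resp. `decide (a = m)`), `oddB_iff`, and
`(List.range (N + 1)).filter (..)` has as length the card of the filter of `Finset.range (N + 1)` (`List.toFinset_card_of_nodup`, `List.nodup_range`), `Icc 1 N` = the nonzero elements
of `range (N + 1)`. -/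
theorem lab_iff (n : ℕ) (U : List (List ℕ × List ℕ)) (hU : ∀ u ∈ U, (∀ s ∈ u.1, s < n) ∧ ∀ t ∈ u.2, t < n) :
    (two : Fin n → ℤ) ∉ sumU (U.map (toU n)) ↔ ∃ lab, labB n U lab = true := by
  have hlen : (U.map (toU n)).length = U.length := List.length_map ..
  rw [gg_iff, tutte_cert, card_nodes]
  constructor
  · rintro ⟨f, h1, h2, h3⟩
    obtain ⟨lab, hl, hf, -⟩ := exists_list f
    refine ⟨lab, (lab_core n U hU _ rfl lab hl f hf).2 ⟨h1, h2, ?_⟩⟩
    convert h3
  · rintro ⟨lab, h⟩
    have hl : lab.length = 2 * n + 2 * (U.map (toU n)).length := by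
      rw [hlen]
      exact (labB_iff'.1 h).1
    obtain ⟨h1, h2, h3⟩ := (lab_core n U hU _ rfl lab hl (fun x => lab.getD (nd n _ x) 0) (fun _ => rfl)).1 h
    refine ⟨fun x => lab.getD (nd n _ x) 0, h1, h2, ?_⟩
    convert h3

end TF4
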