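import Pool.Agent.TFC.Main
import Pool.Agent.TF4.K1
import Pool.Agent.TF4.K5
import Pool.Agent.TF4.K6
import Pool.Agent.TF4.K8
import Pool.Agent.TF4.K9
import Pool.Agent.TF4.K10
import Pool.Agent.TF4.K11
import Pool.Agent.TF4.PTV

set_option autoImplicit false

namespace TF4

open Finset Pool.Agent.TFC
open scoped Pointwise Classical

theorem comb {n : ℕ} {w : List Bool} (hw : matB n w = true) : (¬ ∃ F, IsFac (gr n w) F) ↔
    ∃ cls, clsB n w cls = true ∧ (two : Fin n → ℤ) ∉ sumU ((units n w cls).map (toU n)) := by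
  rw [← fac_iff]
  have hnl : NoLoop (gr n w).edgeFinset := by
    intro e he
    exact (gr n w).not_isDiag_of_mem_edgeFinset he
  rw [main_thm (gr n w).edgeFinset hnl]
  constructor
  · rintro ⟨C, h1, h2, h3⟩
    have : ∃ cls, List.Forall₂ (Rep n) cls C := by
      clear h2 h3
      induction C with
      | nil => exact ⟨[], List.Forall₂.nil⟩
      | cons c C ih =>
        obtain ⟨cls, hcls⟩ := ih (fun c hc => h1 c (List.mem_cons_of_mem _ hc))
        obtain ⟨q, hq⟩ := exists_rep c (h1 c (List.mem_cons_self ..)).1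
        exact ⟨q :: cls, List.Forall₂.cons hq hcls⟩
    obtain ⟨cls, hcls⟩ := this
    refine ⟨cls, (clsB_iff hw cls).2 ⟨C, hcls, h1, h2⟩, ?_⟩
    rw [sum_units hw hcls (fun c hc => (h1 c hc).1)]
    exact h3
  · rintro ⟨cls, h1, h2⟩
    obtain ⟨C, h3, h4, h5⟩ := (clsB_iff hw cls).1 h1
    refine ⟨C, h4, h5, ?_⟩
    rw [← sum_units hw h3 (fun c hc => (h4 c hc).1)]
    exact h2

theorem comb' {n : ℕ} {w : List Bool} (hw : matB n w = true) : (¬ ∃ F, IsFac (gr n w) F) ↔
    ∃ cls lab, clsB n w cls = true ∧ labB n (units n w cls) lab = true := by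
  rw [comb hw]
  constructor
  · rintro ⟨cls, h1, h2⟩
    obtain ⟨lab, hlab⟩ := (lab_iff n _ (units_lt h1)).1 h2
    exact ⟨cls, lab, h1, hlab⟩
  · rintro ⟨cls, lab, h1, h2⟩
    exact ⟨cls, h1, (lab_iff n _ (units_lt h1)).2 ⟨lab, h2⟩⟩

theorem yes_np : Pool.Agent.Lib.helper60.InNP TwoF4 := by
  refine ⟨verYes, Polynomial.X, Pool.Agent.Lib.helper60.PT.verifier PT_verYes, ?_⟩
  intro w
  rw [code_iff]
  unfold verYes
  simp only [Polynomial.eval_X, Bool.and_eq_true]
  constructor
  · rintro ⟨h1, h2⟩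
    obtain ⟨c, hc⟩ := (facB_iff h1).1 h2
    exact ⟨c, (facB_len h1 hc).le, h1, hc⟩
  · rintro ⟨c, h1, h2, h3⟩
    exact ⟨h2, (facB_iff h2).2 ⟨c, h3⟩⟩

/-- size of certificates for graphs with `n` vertices -/
def bnd (n : ℕ) : ℕ :=
  (n * n + 1) * ((2 * n + 2 * (n * n * (n + 4) + n * n) + n + 1) *
    (2 * n + 2 * (n * n * (n + 4) + n * n) + n + 2) + 1)

theorem size_cert {n : ℕ} {w : List Bool} {cls : List (List ℕ)} {lab : List ℕ} (h1 : clsB n w cls = true)
    (h2 : labB n (units n w cls) lab = true) : (encode (lab :: cls)).length ≤ bnd n := by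
  obtain ⟨a1, a2, a3⟩ := cls_size h1
  have b1 := units_size h1
  obtain ⟨c1, c2⟩ := lab_size h2
  have c3 : lab.length ≤ 2 * n + 2 * (n * n * (n + 4) + n * n) := by rw [c1]; omega
  unfold bnd
  apply encode_length
  · simpa using a1
  · intro l hl
    rcases List.mem_cons.1 hl with rfl | hl
    · omega
    · have := a2 l hl
      omega
  · intro l hl x hx
    rcases List.mem_cons.1 hl with rfl | hl
    · have := c2 x hx
      omega
    · have := a3 l hl x hx
      omega

theorem side_le (w : List Bool) (h : matB (side w) w = true) : side w ≤ w.length := by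
  unfold matB at h
  rw [Bool.and_eq_true, decide_eq_true_eq] at h
  rw [h.1]
  exact Nat.le_mul_self _

theorem no_np : Pool.Agent.Lib.helper60.InNP TwoF4ᶜ := by
  obtain ⟨P, hP⟩ : ∃ P : Polynomial ℕ, ∀ n, P.eval n = bnd n := by
    refine ⟨(.X * .X + 1) * ((2 * .X + 2 * (.X * .X * (.X + 4) + .X * .X) + .X + 1) *
      (2 * .X + 2 * (.X * .X * (.X + 4) + .X * .X) + .X + 2) + 1), ?_⟩
    intro n
    simp [bnd]
  have hmono : ∀ a b, a ≤ b → bnd a ≤ bnd b := by
    intro a b h
    unfold bnd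
    gcongr
  refine ⟨verNo, P, Pool.Agent.Lib.helper60.PT.verifier PT_verNo, ?_⟩
  intro w
  rw [Set.mem_compl_iff, code_iff]
  by_cases hw : matB (side w) w = true
  · have e : (¬ (matB (side w) w = true ∧ ∃ F, IsFac (gr (side w) w) F)) ↔
        ¬ ∃ F, IsFac (gr (side w) w) F := by tauto
    rw [e, comb' hw]
    constructor
    · rintro ⟨cls, lab, h1, h2⟩
      refine ⟨encode (lab :: cls), ?_, ?_⟩
      · rw [hP]
        exact (size_cert h1 h2).trans (hmono _ _ (side_le w hw))
      · unfold verNo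
        rw [decode_encode]
        simp [h1, h2]
    · rintro ⟨c, _, h⟩
      unfold verNo at h
      rw [Bool.or_eq_true, Bool.and_eq_true] at h
      rcases h with h | ⟨h1, h2⟩
      · simp [hw] at h
      · exact ⟨_, _, h1, h2⟩
  · constructor
    · intro _
      refine ⟨[], by simp, ?_⟩
      unfold verNo
      simp [hw]
    · rintro _ ⟨h, _⟩
      exact hw h

end TF4
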