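import Pool.Agent.TF4.Rep

set_option autoImplicit false

namespace TF4

open Finset Pool.Agent.TFC
open scoped Pointwise Classical

/-- specification of `memB` -/
theorem memB_iff (u : ℕ) (l : List ℕ) : memB u l = true ↔ u ∈ l := by
  simp only [memB, List.any_eq_true, decide_eq_true_eq, exists_eq_right]

/-- specification of `nodupB`.
PROOF. `List.nodup_iff_getElem?_ne_getElem?` or `List.nodup_iff_injective_get` / `List.Nodup.getElem_inj_iff`: the list has no
repetition iff `l[i] ≠ l[j]` for all `j < i < l.length`; `l.getD i 0 = l[i]` for `i < l.length`. -/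
theorem nodupB_iff (l : List ℕ) : nodupB l = true ↔ l.Nodup := by
  simp only [nodupB, List.all_eq_true, List.mem_range, Bool.not_eq_true', decide_eq_false_iff_not]
  rw [List.Nodup, List.pairwise_iff_getElem]
  constructor
  · intro h i j hi hj hij heq
    refine h j hj i hij ?_
    rw [List.getD_eq_getElem _ _ hj, List.getD_eq_getElem _ _ hi]
    exact heq.symm
  · intro h i hi j hj heq
    have hj' : j < l.length := lt_trans hj hi
    rw [List.getD_eq_getElem _ _ hi, List.getD_eq_getElem _ _ hj'] at heq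
    exact h j i hj' hi hj heq.symm

/-- (TF4-K2) edges of a cluster. `Rep` is in Pool/Agent/TF4/Rep.lean, `CC`, `Clu.edges` in Pool/Agent/SQF/Defs.lean.
PROOF. Cases on `c`. `k4 X`: `q = 1 :: ls.map val`, so `q.getD 0 0 = 1`, `q.drop 1 = ls.map val`, and `cedge q u v` says
`u ∈ ls`, `v ∈ ls`, `u ≠ v`; the edges are the non-diagonal elements of `X.sym2` (`Finset.mk_mem_sym2_iff`, `Sym2.mk_isDiag_iff`).
`k2 w w' c L`: `q = 0 :: w :: w' :: c :: ls`, `q.drop 3 = c :: ls`, so `cedge q u v` says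
`(u = w ∨ u = w') ∧ v ∈ L ∨ (v = w ∨ v = w') ∧ u ∈ L`, and `s(u, v)` is in the image of `l ↦ s(w, l)` or of `l ↦ s(w', l)`
on `L` iff the same holds (`Sym2.eq_iff`). Membership of `(v : ℕ)` in `ls.map Fin.val` is membership of `v` in `ls`
(`List.mem_map`, `Fin.val_injective`). -/
theorem cedge_iff {n : ℕ} {q : List ℕ} {c : CC (Fin n)} (h : Rep n q c) (hv : c.Valid) (u v : Fin n) :
    cedge q u v = true ↔ s(u, v) ∈ c.clu.edges := by
  have hmem : ∀ (l : List (Fin n)) (x : Fin n), memB (x : ℕ) (l.map Fin.val) = true ↔ x ∈ l := by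
    intro l x
    rw [memB_iff, List.mem_map]
    constructor
    · rintro ⟨y, hy, hxy⟩
      rwa [← Fin.val_injective hxy]
    · intro hx
      exact ⟨x, hx, rfl⟩
  cases c with
  | k4 X =>
    obtain ⟨ls, rfl, hn, rfl⟩ := h
    have h1 : cedge (1 :: ls.map Fin.val) u v =
        (memB (u : ℕ) (ls.map Fin.val) && memB (v : ℕ) (ls.map Fin.val) && !decide ((u : ℕ) = v)) := rfl
    rw [h1]
    simp only [Bool.and_eq_true, hmem, Bool.not_eq_true', decide_eq_false_iff_not, CC.clu, Clu.edges,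
      mem_filter, mk_mem_sym2_iff, List.mem_toFinset, Sym2.mk_isDiag_iff, Fin.val_inj]
  | k2 w w' c L =>
    obtain ⟨ls, rfl, hn, hc, rfl⟩ := h
    have h1 : cedge (0 :: w.val :: w'.val :: c.val :: ls.map Fin.val) u v =
        (((decide ((u : ℕ) = w) || decide ((u : ℕ) = w')) && memB (v : ℕ) ((c :: ls).map Fin.val)) ||
        ((decide ((v : ℕ) = w) || decide ((v : ℕ) = w')) && memB (u : ℕ) ((c :: ls).map Fin.val))) := rfl
    rw [h1]
    simp only [Bool.or_eq_true, Bool.and_eq_true, hmem, decide_eq_true_eq, CC.clu, Clu.edges,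
      mem_union, mem_image, mem_insert, List.mem_toFinset, List.mem_cons, Fin.val_inj, Sym2.eq_iff]
    constructor
    · rintro (⟨rfl | rfl, h⟩ | ⟨rfl | rfl, h⟩)
      · exact Or.inl ⟨v, h, Or.inl ⟨rfl, rfl⟩⟩
      · exact Or.inr ⟨v, h, Or.inl ⟨rfl, rfl⟩⟩
      · exact Or.inl ⟨u, h, Or.inr ⟨rfl, rfl⟩⟩
      · exact Or.inr ⟨u, h, Or.inr ⟨rfl, rfl⟩⟩
    · rintro (⟨l, h, ⟨rfl, rfl⟩ | ⟨rfl, rfl⟩⟩ | ⟨l, h, ⟨rfl, rfl⟩ | ⟨rfl, rfl⟩⟩)
      · exact Or.inl ⟨Or.inl rfl, h⟩
      · exact Or.inr ⟨Or.inl rfl, h⟩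
      · exact Or.inl ⟨Or.inr rfl, h⟩
      · exact Or.inr ⟨Or.inr rfl, h⟩

/-- (TF4-K2) every cluster has a code.
PROOF. `k4 X`: `ls := X.toList` (`Finset.nodup_toList`, `Finset.toList_toFinset`). `k2 w w' c L`: `ls := (L.erase c).toList`, `c ∈ L` gives
`insert c (L.erase c) = L`. -/
theorem exists_rep {n : ℕ} (c : CC (Fin n)) (hv : c.Valid) : ∃ q, Rep n q c := by
  cases c with
  | k4 X =>
    exact ⟨_, X.toList, rfl, X.nodup_toList, X.toList_toFinset.symm⟩
  | k2 w w' c L =>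
    refine ⟨_, (L.erase c).toList, rfl, Finset.nodup_toList _, ?_, ?_⟩
    · rw [Finset.mem_toList]
      exact Finset.notMem_erase c L
    · rw [Finset.toList_toFinset, Finset.insert_erase hv.2.2.2.2]

end TF4
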