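import Pool.Agent.TF4.K2

set_option autoImplicit false

namespace TF4

open Finset Pool.Agent.TFC
open scoped Pointwise Classical

theorem K4_lift {n : ℕ} (l : List ℕ) (h : ∀ x ∈ l, x < n) : ∃ l' : List (Fin n), l = l'.map Fin.val := by
  refine ⟨l.attach.map (fun x => ⟨x.1, h x.1 x.2⟩), ?_⟩
  rw [List.map_map]
  have : (Fin.val ∘ fun x : {x // x ∈ l} => (⟨x.1, h x.1 x.2⟩ : Fin n)) = Subtype.val := by
    funext x
    rfl
  rw [this, List.attach_map_subtype_val]

/-- (TF4-K4) well-formed codes of clusters. `cwf`, `matB`, `gr`, `bit` are in Pool/Agent/TF4/Ver.lean; K2 has `memB_iff`, `nodupB_iff`,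
`cedge_iff` (may be used as they stand).
PROOF. (←) Let `Rep n q c`, `c.Valid`, edges in the graph. `k4 X`: `q = 1 :: ls.map val`: `q.drop 1 = ls.map val` has no repetition
(`List.Nodup.map Fin.val_injective`) and entries `< n`; `ls.length = X.card = 4` (`List.toFinset_card_of_nodup`), so `q.length = 5`.
`k2 w w' c L`: `q.drop 1 = w :: w' :: c :: ls` (values) has no repetition since `w ≠ w'`, `w, w' ∉ L = insert c ls.toFinset`, `c ∉ ls`, `ls.Nodup`;
`2 ≤ L.card` and `c ∉ ls` give `ls ≠ []`, so `5 ≤ q.length`. Last check: for `u, v < n` with `cedge q u v = true`, `cedge_iff` (with `⟨u, _⟩`, `⟨v, _⟩`) gives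
an edge of the cluster, so `(gr n w).Adj`, whose first component is `bit n w u v = true` (`SimpleGraph.mem_edgeFinset`, `SimpleGraph.mem_edgeSet`).
(→) If `q.getD 0 0 = 0`: `5 ≤ q.length` gives `q = 0 :: x :: y :: z :: ls`, `ls ≠ []` (`List.exists_cons_of_length_pos`, or `match q`), all entries of
`x :: y :: z :: ls` are `< n` and different; lift to `Fin n`: `ls = ls'.map Fin.val` with `ls' := ls.attach.map (fun l => ⟨l.1, _⟩)` (or `List.map_pmap`, `ls.pmap Fin.mk`).
Take `c := .k2 x y z (insert z ls'.toFinset)`: `Rep` and `Valid` are clear; every edge of it is `s(u, v)` with `cedge q u v = true` (`cedge_iff`), so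
`bit n w u v = true`; also `cedge q v u = true` (`Sym2.eq_swap`), `bit n w v u = true`, and `u ≠ v` by validity. If `q.getD 0 0 = 1`: `q = 1 :: X`,
`X` of length 4, the same with `k4`. -/
theorem cwf_iff {n : ℕ} {w : List Bool} (hw : matB n w = true) {q : List ℕ} : cwf n w q = true ↔
    ∃ c : CC (Fin n), Rep n q c ∧ c.Valid ∧ c.clu.edges ⊆ (gr n w).edgeFinset := by
  constructor
  · intro h
    simp only [cwf, Bool.and_eq_true, List.all_eq_true, decide_eq_true_eq, List.mem_range, Bool.or_eq_true,
      Bool.not_eq_true'] at h
    obtain ⟨⟨⟨h1, h2⟩, h3⟩, h4⟩ := h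
    rw [nodupB_iff] at h1
    have key : ∃ c : CC (Fin n), Rep n q c ∧ c.Valid := by
      by_cases h0 : q.getD 0 0 = 0
      · rw [if_pos h0, decide_eq_true_eq] at h3
        match q, h0, h1, h2, h3 with
        | a :: x :: y :: z :: t :: ls, h0, h1, h2, h3 =>
          have ha : a = 0 := h0
          subst ha
          obtain ⟨l', hl'⟩ := K4_lift (n := n) (x :: y :: z :: t :: ls) (fun u hu => h2 u hu)
          match l', hl' with
          | x' :: y' :: z' :: t' :: ls', hl' =>
            simp only [List.map_cons, List.cons.injEq] at hl'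
            obtain ⟨rfl, rfl, rfl, rfl, rfl⟩ := hl'
            have h1' : (x' :: y' :: z' :: t' :: ls').Nodup := by
              apply List.Nodup.of_map Fin.val
              exact h1
            simp only [List.nodup_cons, List.mem_cons, not_or] at h1'
            obtain ⟨⟨a1, a2, a3, a4⟩, ⟨b1, b2, b3⟩, ⟨c1, c2⟩, d1, d2⟩ := h1'
            refine ⟨.k2 x' y' z' (insert z' (t' :: ls').toFinset), ⟨t' :: ls', rfl, ?_, ?_, rfl⟩, a1, ?_, ?_, ?_, ?_⟩
            · simp [d1, d2]
            · simp [c1, c2]
            · simp [a2, a3, a4]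
            · simp [b1, b2, b3]
            · have : ({z', t'} : Finset (Fin n)) ⊆ insert z' (t' :: ls').toFinset := by
                intro u hu
                simp only [Finset.mem_insert, Finset.mem_singleton] at hu
                rcases hu with rfl | rfl <;> simp
              calc 2 = #({z', t'} : Finset (Fin n)) := by rw [Finset.card_pair c1]
                _ ≤ _ := Finset.card_le_card this
            · simp
      · rw [if_neg h0] at h3
        simp only [Bool.and_eq_true, decide_eq_true_eq] at h3
        obtain ⟨h3, h3'⟩ := h3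
        match q, h0, h1, h2, h3, h3' with
        | a :: ls, h0, h1, h2, h3, h3' =>
          have ha : a = 1 := h3
          subst ha
          obtain ⟨l', hl'⟩ := K4_lift (n := n) ls (fun u hu => h2 u hu)
          subst hl'
          have h1' : l'.Nodup := List.Nodup.of_map Fin.val h1
          refine ⟨.k4 l'.toFinset, ⟨l', rfl, h1', rfl⟩, ?_⟩
          show #(l'.toFinset) = 4
          rw [List.toFinset_card_of_nodup h1']
          simpa using h3'
    obtain ⟨c, hc, hv⟩ := key
    refine ⟨c, hc, hv, ?_⟩
    intro e he
    induction e using Sym2.ind with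
    | _ u v =>
      have h5 : cedge q u v = true := (cedge_iff hc hv u v).2 he
      have h6 : cedge q v u = true := (cedge_iff hc hv v u).2 (by rwa [Sym2.eq_swap])
      have hb1 : bit n w u v = true := by
        rcases h4 u u.2 v v.2 with h | h
        · rw [h5] at h
          cases h
        · exact h
      have hb2 : bit n w v u = true := by
        rcases h4 v v.2 u u.2 with h | h
        · rw [h6] at h
          cases h
        · exact h
      have hne : u ≠ v := by
        rintro rfl
        simp only [matB, Bool.and_eq_true, List.all_eq_true, decide_eq_true_eq, List.mem_range, Bool.not_eq_true'] at hw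
        have := (hw.2 u u.2).1
        rw [hb1] at this
        cases this
      rw [SimpleGraph.mem_edgeFinset, SimpleGraph.mem_edgeSet]
      exact ⟨hb1, hb2, hne⟩
  · rintro ⟨c, hr, hv, hE⟩
    simp only [cwf, Bool.and_eq_true, List.all_eq_true, decide_eq_true_eq, List.mem_range, Bool.or_eq_true,
      Bool.not_eq_true']
    have h4 : ∀ x < n, ∀ x_1 < n, cedge q x x_1 = false ∨ bit n w x x_1 = true := by
      intro u hu v hv'
      by_cases hc : cedge q u v = true
      · right
        have h7 := hE ((cedge_iff hr hv ⟨u, hu⟩ ⟨v, hv'⟩).1 hc)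
        rw [SimpleGraph.mem_edgeFinset, SimpleGraph.mem_edgeSet] at h7
        exact h7.1
      · left
        simpa using hc
    refine ⟨⟨⟨?_, ?_⟩, ?_⟩, h4⟩
    · rw [nodupB_iff]
      cases c with
      | k4 X =>
        obtain ⟨ls, rfl, hnd, -⟩ := hr
        exact hnd.map Fin.val_injective
      | k2 a a' c L =>
        obtain ⟨ls, rfl, hnd, hc, rfl⟩ := hr
        obtain ⟨h1, h2, h3, h4, h5⟩ := hv
        have : (a :: a' :: c :: ls).Nodup := by
          simp only [Finset.mem_insert, List.mem_toFinset, not_or] at h2 h3
          simp only [List.nodup_cons, List.mem_cons, not_or]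
          exact ⟨⟨h1, h2.1, h2.2⟩, ⟨h3.1, h3.2⟩, hc, hnd⟩
        exact this.map Fin.val_injective
    · cases c with
      | k4 X =>
        obtain ⟨ls, rfl, hnd, -⟩ := hr
        intro x hx
        simp only [List.drop_succ_cons, List.drop_zero, List.mem_map] at hx
        obtain ⟨y, -, rfl⟩ := hx
        exact y.2
      | k2 a a' c L =>
        obtain ⟨ls, rfl, hnd, hc, rfl⟩ := hr
        intro x hx
        simp only [List.drop_succ_cons, List.drop_zero, List.mem_cons, List.mem_map] at hx
        rcases hx with rfl | rfl | rfl | ⟨y, -, rfl⟩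
        · exact a.2
        · exact a'.2
        · exact c.2
        · exact y.2
    · cases c with
      | k4 X =>
        obtain ⟨ls, rfl, hnd, rfl⟩ := hr
        have hX : #(ls.toFinset) = 4 := hv
        rw [List.toFinset_card_of_nodup hnd] at hX
        simp [hX]
      | k2 a a' c L =>
        obtain ⟨ls, rfl, hnd, hc, rfl⟩ := hr
        obtain ⟨h1, h2, h3, h4, h5⟩ := hv
        cases ls with
        | nil => simp at h4
        | cons t ls => simp

end TF4
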