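import Pool.Agent.TF4.Ver

set_option autoImplicit false

namespace TF4

open Finset
open scoped Classical

/-- number of the node -/
def nd (n k : ℕ) : (Fin n × Bool) ⊕ (Fin k × Bool) → ℕ
  | .inl (v, b) => 2 * v + (if b = true then 1 else 0)
  | .inr (i, b) => 2 * n + 2 * i + (if b = true then 1 else 0)

theorem nd_lt {n k : ℕ} (x : (Fin n × Bool) ⊕ (Fin k × Bool)) : nd n k x < 2 * n + 2 * k := by
  rcases x with ⟨v, b⟩ | ⟨v, b⟩
  · have := v.2
    simp only [nd]
    split <;> omega
  · have := v.2
    simp only [nd]
    split <;> omega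

theorem nd_inj {n k : ℕ} : Function.Injective (nd n k) := by
  rintro (⟨v, b⟩ | ⟨v, b⟩) (⟨v', b'⟩ | ⟨v', b'⟩) h
  · have := v.2
    have := v'.2
    simp only [nd] at h
    have h1 : (v : ℕ) = v' := by split at h <;> split at h <;> omega
    have h2 : b = b' := by
      rcases b with _ | _ <;> rcases b' with _ | _ <;> simp at h ⊢ <;> omega
    rw [Fin.ext h1, h2]
  · have := v.2
    have := v'.2
    simp only [nd] at h
    split at h <;> split at h <;> omega
  · have := v.2
    have := v'.2
    simp only [nd] at h
    split at h <;> split at h <;> omega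
  · have := v.2
    have := v'.2
    simp only [nd] at h
    have h1 : (v : ℕ) = v' := by split at h <;> split at h <;> omega
    have h2 : b = b' := by
      rcases b with _ | _ <;> rcases b' with _ | _ <;> simp at h ⊢ <;> omega
    rw [Fin.ext h1, h2]

theorem nd_surj {n k m : ℕ} (h : m < 2 * n + 2 * k) : ∃ x, nd n k x = m := by
  by_cases hm : m < 2 * n
  · refine ⟨.inl (⟨m / 2, by omega⟩, decide (m % 2 = 1)), ?_⟩
    simp only [nd, decide_eq_true_eq]
    split <;> omega
  · refine ⟨.inr (⟨(m - 2 * n) / 2, by omega⟩, decide (m % 2 = 1)), ?_⟩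
    simp only [nd, decide_eq_true_eq]
    split <;> omega

private lemma K7_fold (l : List ℕ) (b : Bool) :
    (l.foldl (fun b _ => !b) b = true) ↔ (b = true ↔ ¬ Odd l.length) := by
  induction l generalizing b with
  | nil => simp
  | cons a l ih =>
    rw [List.foldl_cons, ih, List.length_cons, Nat.odd_add_one]
    rcases b with _ | _ <;> simp

/-- (TF4-K7) parity.
PROOF. Induction from the right (`List.foldl_append`) or generalise the start: `l.foldl (fun b _ => !b) b0 = (b0 ^^ decide (Odd l.length))`. -/
theorem oddB_iff (l : List ℕ) : oddB l = true ↔ Odd l.length := by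
  rw [oddB, K7_fold]
  simp

private lemma K7_filter (l : List ℕ) (p : ℕ → Bool) :
    (l.filter p).length = ((Finset.range l.length).filter (fun i => p (l.getD i 0) = true)).card := by
  induction l with
  | nil => simp
  | cons a l ih =>
    have e : (Finset.range (l.length + 1)).filter (fun i => p ((a :: l).getD i 0) = true) =
        (if p a = true then {0} else ∅) ∪
        ((Finset.range l.length).filter (fun i => p (l.getD i 0) = true)).map
          ⟨Nat.succ, Nat.succ_injective⟩ := by
      ext i
      rcases i with _ | i
      · by_cases h : p a = true <;> simp [h]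
      · by_cases h : p a = true <;> simp [h]
    rw [List.length_cons, e, Finset.card_union_of_disjoint, Finset.card_map, ← ih]
    · by_cases h : p a = true
      · simp [h, add_comm]
      · simp [h]
    · rw [Finset.disjoint_left]
      intro i hi
      by_cases h : p a = true
      · simp only [h, if_true, Finset.mem_singleton] at hi
        subst hi
        simp
      · simp [h] at hi

/-- (TF4-K7) counting entries of a list by nodes.
PROOF. `(l.filter p).length = (range l.length).filter (fun i => p (l.getD i 0) = true)` in cardinality (induction on `l`, or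
`List.countP`, `List.ofFn`), and `nd n k` is a bijection from the nodes onto the numbers below `2 n + 2 k` (`Finset.card_bij`). -/
theorem count_nodes {n k : ℕ} (l : List ℕ) (hl : l.length = 2 * n + 2 * k) (p : ℕ → Bool) :
    (l.filter p).length = (univ.filter (fun x : (Fin n × Bool) ⊕ (Fin k × Bool) => p (l.getD (nd n k x) 0) = true)).card := by
  rw [K7_filter, hl]
  symm
  refine Finset.card_bij (fun x _ => nd n k x) ?_ (fun x _ y _ h => nd_inj h) ?_
  · intro x hx
    simp only [Finset.mem_filter, Finset.mem_univ, true_and, Finset.mem_range] at hx ⊢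
    exact ⟨nd_lt x, hx⟩
  · intro m hm
    simp only [Finset.mem_filter, Finset.mem_univ, true_and, Finset.mem_range] at hm ⊢
    obtain ⟨x, hx⟩ := nd_surj hm.1
    exact ⟨x, by rw [hx]; exact hm.2, hx⟩

/-- (TF4-K7) every function on the nodes is given by a list.
PROOF. `l := (List.range (2 * n + 2 * k)).map (fun m => if h : ∃ x, nd n k x = m then f h.choose else 0)` and `nd_inj`. -/
theorem exists_list {n k : ℕ} (f : (Fin n × Bool) ⊕ (Fin k × Bool) → ℕ) :
    ∃ l : List ℕ, l.length = 2 * n + 2 * k ∧ (∀ x, l.getD (nd n k x) 0 = f x) ∧ ∀ a ∈ l, ∃ x, a = f x := by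
  refine ⟨(List.range (2 * n + 2 * k)).map (fun m => if h : ∃ x, nd n k x = m then f h.choose else 0),
    by simp, ?_, ?_⟩
  · intro x
    have h1 := nd_lt x
    have h : ∃ y, nd n k y = nd n k x := ⟨x, rfl⟩
    rw [List.getD_eq_getElem _ _ (by simpa using h1), List.getElem_map, List.getElem_range, dif_pos h]
    exact congrArg f (nd_inj h.choose_spec)
  · intro a ha
    rw [List.mem_map] at ha
    obtain ⟨m, hm, rfl⟩ := ha
    rw [List.mem_range] at hm
    have h := nd_surj hm
    exact ⟨h.choose, dif_pos h⟩

end TF4
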