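import Pool.Agent.TF4.Ver

set_option autoImplicit false

namespace TF4

open Finset Pool.Agent.TFC

/-- the list `q` describes the cluster `c` -/
def Rep (n : ℕ) (q : List ℕ) : CC (Fin n) → Prop
  | .k4 X => ∃ ls : List (Fin n), q = 1 :: ls.map Fin.val ∧ ls.Nodup ∧ X = ls.toFinset
  | .k2 w w' c L => ∃ ls : List (Fin n), q = 0 :: w.val :: w'.val :: c.val :: ls.map Fin.val ∧ ls.Nodup ∧
      c ∉ ls ∧ L = insert c ls.toFinset

end TF4
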