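import Pool.Agent.TFC.Defs

set_option autoImplicit false

/-! [TF4] the language 2F({4}), and the certificates for graphs without 2-factor without cycles of length 4, given by
computable functions on lists. -/

namespace TF4

open Finset Pool.Agent.TFC

/-! ### the problem -/

/-- `F` is a 2-factor of `G` without cycles of length 4 -/
structure IsFac {V : Type} (G F : SimpleGraph V) : Prop where
  le : F ≤ G
  two : ∀ v, {u | F.Adj v u}.ncard = 2
  free : ∀ a b c d, F.Adj a b → F.Adj b c → F.Adj c d → F.Adj d a → a = c ∨ b = d

/-- the adjacency matrix of `G`, row by row -/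
noncomputable def code {n : ℕ} (G : SimpleGraph (Fin n)) : List Bool := by
  classical exact List.ofFn fun k : Fin (n * n) => decide (G.Adj k.divNat k.modNat)

/-- 2F({4}) as a language: adjacency matrices of the graphs with a 2-factor without cycles of length 4 -/
def TwoF4 : Set (List Bool) :=
  {w | ∃ (n : ℕ) (G : SimpleGraph (Fin n)), w = code G ∧ ∃ F, IsFac G F}

/-! ### graphs on `0, .., n-1` given by a bit string -/

/-- the bit in row `i` and column `j` -/
def bit (n : ℕ) (w : List Bool) (i j : ℕ) : Bool := w.getD (n * i + j) false

/-- the graph of a bit string -/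
def gr (n : ℕ) (w : List Bool) : SimpleGraph (Fin n) where
  Adj i j := bit n w i j = true ∧ bit n w j i = true ∧ i ≠ j
  symm := ⟨fun _ _ h => ⟨h.2.1, h.1, h.2.2.symm⟩⟩
  loopless := ⟨fun _ h => h.2.2 rfl⟩

/-- `w` is the adjacency matrix of a graph on `0, .., n-1` -/
def matB (n : ℕ) (w : List Bool) : Bool :=
  decide (w.length = n * n) && (List.range n).all (fun i => !bit n w i i &&
    (List.range n).all (fun j => decide (bit n w i j = bit n w j i)))

/-- the number of vertices -/
def side (w : List Bool) : ℕ :=
  ((List.range (w.length + 1)).filter (fun n => decide (n * n = w.length))).headD 0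

/-! ### clusters

A cluster is a list of naturals: `0 :: x :: y :: c :: ls` is the complete bipartite graph with the sides `{x, y}` and
`c :: ls` (`ls` not empty), with the chosen edge `x c`; a list `1 :: X` with `X` of length 4 is the complete graph
on `X`. -/

/-- membership in a list of naturals -/
def memB (u : ℕ) (l : List ℕ) : Bool := l.any (fun x => decide (x = u))

/-- no repetition in a list of naturals -/
def nodupB (l : List ℕ) : Bool :=
  (List.range l.length).all (fun i => (List.range i).all (fun j => !decide (l.getD i 0 = l.getD j 0)))

/-- `u v` is an edge of the cluster `q` -/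
def cedge (q : List ℕ) (u v : ℕ) : Bool :=
  if q.getD 0 0 = 0 then
    ((decide (u = q.getD 1 0) || decide (u = q.getD 2 0)) && memB v (q.drop 3)) ||
    ((decide (v = q.getD 1 0) || decide (v = q.getD 2 0)) && memB u (q.drop 3))
  else memB u (q.drop 1) && memB v (q.drop 1) && !decide (u = v)

/-- `q` is a cluster of the graph coded by `w` -/
def cwf (n : ℕ) (w : List Bool) (q : List ℕ) : Bool :=
  nodupB (q.drop 1) && (q.drop 1).all (fun u => decide (u < n)) &&
  (if q.getD 0 0 = 0 then decide (5 ≤ q.length) else decide (q.getD 0 0 = 1) && decide (q.length = 5)) &&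
  (List.range n).all (fun u => (List.range n).all (fun v => !cedge q u v || bit n w u v))

/-- the units of the cluster `q` -/
def cunits (q : List ℕ) : List (List ℕ × List ℕ) :=
  if q.getD 0 0 = 0 then
    (q.drop 4).map (fun l => ([l], [q.getD 1 0, q.getD 2 0])) ++
      [([q.getD 1 0], q.drop 3), ([q.getD 2 0], [q.getD 3 0])]
  else [(q.drop 1, q.drop 1), (q.drop 1, q.drop 1), (q.drop 1, q.drop 1)]

/-- the clusters are subgraphs of the graph and have no common edge -/
def clsB (n : ℕ) (w : List Bool) (cls : List (List ℕ)) : Bool :=
  cls.all (fun q => cwf n w q) &&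
  (List.range n).all (fun u => (List.range n).all (fun v =>
    decide ((cls.filter (fun q => cedge q u v)).length ≤ 1)))

/-- the units of the edges in no cluster -/
def ounits (n : ℕ) (w : List Bool) (cls : List (List ℕ)) : List (List ℕ × List ℕ) :=
  (List.range n).flatMap (fun u => ((List.range u).filter (fun v =>
    bit n w u v && !cls.any (fun q => cedge q u v))).map (fun v => ([u], [v])))

/-- all units -/
def units (n : ℕ) (w : List Bool) (cls : List (List ℕ)) : List (List ℕ × List ℕ) :=
  cls.flatMap (fun q => cunits q) ++ ounits n w cls

/-- the finite sets of a unit -/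
def toU (n : ℕ) (u : List ℕ × List ℕ) : Finset (Fin n) × Finset (Fin n) :=
  (univ.filter (fun v : Fin n => (v : ℕ) ∈ u.1), univ.filter (fun v : Fin n => (v : ℕ) ∈ u.2))

/-! ### barriers -/

/-- labels of two adjacent nodes -/
def compat (a b : ℕ) : Bool := decide (a = 0) || decide (b = 0) || decide (a = b)

/-- parity of the length of a list -/
def oddB (l : List ℕ) : Bool := l.foldl (fun b _ => !b) false

/-- `lab` is a barrier for the unit system `U`: the nodes are `2 v`, `2 v + 1` for the vertices `v < n`, and
`2 n + 2 i`, `2 n + 2 i + 1` for the units; label 0 is the Tutte set, the other labels are unions of components. -/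
def labB (n : ℕ) (U : List (List ℕ × List ℕ)) (lab : List ℕ) : Bool :=
  decide (lab.length = 2 * n + 2 * U.length) &&
  lab.all (fun a => decide (a ≤ lab.length)) &&
  (List.range U.length).all (fun i =>
    compat (lab.getD (2 * n + 2 * i) 0) (lab.getD (2 * n + 2 * i + 1) 0) &&
    (U.getD i ([], [])).1.all (fun s => compat (lab.getD (2 * n + 2 * i) 0) (lab.getD (2 * s) 0) &&
      compat (lab.getD (2 * n + 2 * i) 0) (lab.getD (2 * s + 1) 0)) &&
    (U.getD i ([], [])).2.all (fun t => compat (lab.getD (2 * n + 2 * i + 1) 0) (lab.getD (2 * t) 0) &&
      compat (lab.getD (2 * n + 2 * i + 1) 0) (lab.getD (2 * t + 1) 0))) &&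
  decide ((lab.filter (fun a => decide (a = 0))).length <
    ((List.range (lab.length + 1)).filter (fun m => !decide (m = 0) &&
      oddB (lab.filter (fun a => decide (a = m))))).length)

/-! ### the bit strings of certificates -/

/-- the numbers coded by a bit string in unary, `0` being the end of a number -/
def nums (c : List Bool) : List ℕ :=
  (c.foldl (fun (s : ℕ × List ℕ) b => if b = true then (s.1 + 1, s.2) else (0, s.1 :: s.2)) (0, [])).2.reverse

/-- split a list of numbers at the zeros, and decrease the other numbers by one -/
def groups (l : List ℕ) : List (List ℕ) :=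
  (l.foldl (fun (s : List ℕ × List (List ℕ)) m =>
    if m = 0 then ([], s.1.reverse :: s.2) else ((m - 1) :: s.1, s.2)) ([], [])).2.reverse

/-- decoding of certificates -/
def decode (c : List Bool) : List (List ℕ) := groups (nums c)

/-- the code of a certificate -/
def encode (g : List (List ℕ)) : List Bool :=
  g.flatMap (fun l => l.flatMap (fun m => List.replicate (m + 1) true ++ [false]) ++ [false])

/-! ### the verifiers -/

/-- `c` is the adjacency matrix of a 2-factor without 4-cycles of the graph coded by `w` -/
def facB (n : ℕ) (w c : List Bool) : Bool :=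
  matB n c &&
  (List.range n).all (fun i =>
    (List.range n).all (fun j => !bit n c i j || bit n w i j) &&
    decide (((List.range n).filter (fun j => bit n c i j)).length = 2) &&
    (List.range n).all (fun j => (List.range n).all (fun k => (List.range n).all (fun l =>
      !bit n c i j || !bit n c j k || !bit n c k l || !bit n c l i || decide (i = k) || decide (j = l)))))

/-- verifier for 2F({4}) -/
def verYes (p : List Bool × List Bool) : Bool := matB (side p.1) p.1 && facB (side p.1) p.1 p.2

/-- verifier for the complement of 2F({4}) -/
def verNo (p : List Bool × List Bool) : Bool :=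
  !matB (side p.1) p.1 || (clsB (side p.1) p.1 (decode p.2).tail &&
    labB (side p.1) (units (side p.1) p.1 (decode p.2).tail) ((decode p.2).headD []))

end TF4
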